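import Mathlib

/-!
# Cost of groups with amenable 2-generated subgroups: statements of the parts

Group part: an infinite group all of whose 2-generated subgroups are finite has an infinite locally
finite subgroup.  Cost part: random edge configurations on a countable group.
-/

set_option autoImplicit false

open MeasureTheory

namespace Pool.Agent.W336.CS

/-! ## Group theory -/

/-- `E` is malnormal. -/
def Mal {W : Type} [Group W] (E : Subgroup W) : Prop :=
  ∀ w x : W, x ∈ E → x ≠ 1 → w * x * w⁻¹ ∈ E → w ∈ E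

/-- `E` is a proper malnormal subgroup of the subgroup `V`. -/
def MalIn {H : Type} [Group H] (E V : Subgroup H) : Prop :=
  E < V ∧ ∀ w ∈ V, ∀ x ∈ E, x ≠ 1 → w * x * w⁻¹ ∈ E → w ∈ E

/-- all 2-generated subgroups are finite -/
def Fin2 (H : Type) [Group H] : Prop :=
  ∀ a b : H, (Subgroup.closure ({a, b} : Set H) : Set H).Finite

/-- centralizers of nontrivial elements are finite -/
def FinCent (H : Type) [Group H] : Prop := ∀ a : H, a ≠ 1 → {x : H | x * a = a * x}.Finite

/-- the subgroup `M` is locally finite -/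
def LF {H : Type} [Group H] (M : Subgroup H) : Prop :=
  ∀ s : Finset H, (s : Set H) ⊆ M → (Subgroup.closure (s : Set H) : Set H).Finite

/-- every locally finite subgroup is finite -/
def NoInfLF (H : Type) [Group H] : Prop := ∀ M : Subgroup H, LF M → (M : Set H).Finite

/-- Frobenius' theorem (existence of the Frobenius kernel). -/
def S_frob : Prop := ∀ (W : Type) [Group W] [Finite W] (E : Subgroup W), Mal E →
  ∃ K : Subgroup W, K.Normal ∧ K ⊓ E = ⊥ ∧ K ⊔ E = ⊤

/-- A subgroup containing the normalizers of its nontrivial subgroups is malnormal. -/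
def S_mal : Prop := ∀ (W : Type) [Group W] [Finite W] (E : Subgroup W),
  (∀ X : Subgroup W, X ≤ E → X ≠ ⊥ → Subgroup.normalizer (X : Set W) ≤ E) → Mal E

/-- Stable intersections. -/
def S_stab : Prop := ∀ (H : Type) [Group H], Fin2 H → FinCent H → NoInfLF H →
  ∀ (c : H) (Y : Set H), c ≠ 1 → Y.Infinite →
    ∃ Y' : Set H, Y' ⊆ Y ∧ Y'.Infinite ∧ ∃ E : Subgroup H, (E : Set H).Finite ∧ c ∈ E ∧
      ∀ y ∈ Y', MalIn E (Subgroup.closure ({c, y} : Set H))

/-- `c` and `n` lie in a common proper malnormal subgroup of a finite subgroup. -/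
def S_kappa : Prop := ∀ (H : Type) [Group H] [Infinite H], Fin2 H → FinCent H → NoInfLF H →
  ∀ c n : H, c ≠ 1 → n * c * n⁻¹ ∈ Subgroup.zpowers c →
    ∃ V E : Subgroup H, (V : Set H).Finite ∧ c ∈ E ∧ n ∈ E ∧ MalIn E V

/-- Frobenius complements contain no noncyclic groups of order `r ^ 2` or `p * r`. -/
def S_comp : Prop := ∀ (V : Type) [Group V] [Finite V] (E : Subgroup V), Mal E → E ≠ ⊤ →
  ∀ k d : V, k ∈ E → d ∈ E → (orderOf k).Prime → (orderOf d).Prime →
    ((d * k = k * d ∧ orderOf d = orderOf k ∧ d ∉ Subgroup.zpowers k) ∨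
      (d * k ≠ k * d ∧ d * k * d⁻¹ ∈ Subgroup.zpowers k)) → False

/-- In a Frobenius group one finds `k` of prime order and `d` of prime order as in `S_comp`. -/
def S_find : Prop := ∀ (V : Type) [Group V] [Finite V] (E : Subgroup V), Mal E → E ≠ ⊤ → E ≠ ⊥ →
  ∃ k d : V, (orderOf k).Prime ∧ (orderOf d).Prime ∧ d * k * d⁻¹ ∈ Subgroup.zpowers k ∧
    ((d * k = k * d ∧ orderOf d = orderOf k ∧ d ∉ Subgroup.zpowers k) ∨
      (d * k ≠ k * d ∧ d * k * d⁻¹ ∈ Subgroup.zpowers k))

/-- no infinite group has all these finiteness properties -/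
def S_fin : Prop := ∀ (H : Type) [Group H], Fin2 H → FinCent H → NoInfLF H → Finite H

/-- An infinite group all of whose 2-generated subgroups are finite has an infinite locally finite
subgroup. -/
def S_lf : Prop := ∀ (H : Type) [Group H], Fin2 H → NoInfLF H → Finite H

/-! ## Paradoxical decompositions -/

/-- From an expansion inequality to a paradoxical decomposition with a half of 3 pieces. -/
def S_hall : Prop := ∀ (G : Type) [Group G] (a b s : G) (δ : ℝ), 0 < δ →
  (∀ C D V : Finset G, C ⊆ D → D ⊆ V → (∀ x ∈ D, a * x ∈ V ∧ b * x ∈ V) → (∀ x ∈ C, s * x ∈ V) →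
    (D.card : ℝ) + δ * C.card ≤ V.card) →
  ∃ (n : ℕ) (P : Fin 3 → Set G) (Q : Fin n → Set G) (g : Fin 3 → G) (h : Fin n → G),
    (∀ i j, i ≠ j → Disjoint (P i) (P j)) ∧
    (∀ i j, i ≠ j → Disjoint (Q i) (Q j)) ∧
    (∀ i j, Disjoint (P i) (Q j)) ∧
    (⋃ i, (fun x : G => g i * x) '' P i) = Set.univ ∧
    (⋃ j, (fun x : G => h j * x) '' Q j) = Set.univ

/-- The lower bound 3 for torsion groups. -/
def S_lower : Prop := ∀ (G : Type) [Group G], Monoid.IsTorsion G → ∀ m n : ℕ,
  (∃ (P : Fin m → Set G) (Q : Fin n → Set G) (g : Fin m → G) (h : Fin n → G),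
    (∀ i j, i ≠ j → Disjoint (P i) (P j)) ∧
    (∀ i j, i ≠ j → Disjoint (Q i) (Q j)) ∧
    (∀ i j, Disjoint (P i) (Q j)) ∧
    (⋃ i, (fun x : G => g i * x) '' P i) = Set.univ ∧
    (⋃ j, (fun x : G => h j * x) '' Q j) = Set.univ) →
  3 ≤ min m n

/-- amenable: there is an invariant finitely additive probability measure on all subsets -/
def Amen (G : Type) [Group G] : Prop :=
  ∃ m : Set G → ℝ, (∀ A, 0 ≤ m A) ∧ m Set.univ = 1 ∧
    (∀ A B, Disjoint A B → m (A ∪ B) = m A + m B) ∧
    ∀ (g : G) (A : Set G), m ((fun x => g * x) '' A) = m A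

/-- Folner's condition -/
def Fol (G : Type) [Group G] : Prop :=
  ∀ (S : Finset G) (ε : ℝ), 0 < ε → ∃ F : Finset G, F.Nonempty ∧
    ∀ s ∈ S, (Set.ncard {x : G | x ∈ F ∧ s * x ∉ F} : ℝ) ≤ ε * F.card

/-- amenable groups satisfy Folner's condition -/
def S_fol : Prop := ∀ (G : Type) [Group G], Amen G → Fol G

/-! ## Configurations -/

/-- Edge configurations on `G`: `ω (g, s) = true` means that the edge from `g` to `s * g` is
present. -/
abbrev Cfg (G : Type) : Type := G × G → Bool

/-- adjacency by a base label in `B` or by a present edge -/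
def adj {G : Type} [Group G] (B : Set G) (ω : Cfg G) (a b : G) : Prop :=
  (∃ u ∈ B, b = u * a) ∨ ∃ s, ω (a, s) = true ∧ b = s * a

/-- connected by a path -/
def Conn {G : Type} [Group G] (B : Set G) (ω : Cfg G) : G → G → Prop :=
  Relation.EqvGen (adj B ω)

/-- the end points of the edge `e` are not connected when `e` is removed -/
def Bridge {G : Type} [Group G] [DecidableEq G] (B : Set G) (ω : Cfg G) (e : G × G) : Prop :=
  ¬ Conn B (Function.update ω e false) e.1 (e.2 * e.1)

/-- forest relative to the base labels `B` -/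
def Forest {G : Type} [Group G] [DecidableEq G] (B : Set G) (ω : Cfg G) : Prop :=
  ∀ e, ω e = true → Bridge B ω e

/-- Counting bridges. -/
def S_cnt : Prop := ∀ (G : Type) [Group G] [DecidableEq G] (B D V : Finset G) (ω : Cfg G)
  (Z : Finset (G × G)),
  (∀ e ∈ Z, e.1 ∈ D ∧ e.2 * e.1 ∈ V ∧ ω e = true ∧ Bridge (B : Set G) ω e) →
  D ⊆ V → (∀ b ∈ B, ∀ x ∈ D, b * x ∈ V) →
  (Z.card : ℝ) ≤ ((V \ D).card : ℝ) + D.card / Nat.card (Subgroup.closure (B : Set G))

/-- Adding bridges to a forest. -/
def S_for : Prop := ∀ (G : Type) [Group G] [DecidableEq G] (B : Set G) (ω η ζ : Cfg G),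
  Forest B ω →
  (∀ e, ζ e = true ↔ ω e = true ∨ (η e = true ∧
    ¬ Conn B (fun e' => ω e' || Function.update η e false e') e.1 (e.2 * e.1))) →
  Forest B ζ

/-- translation of configurations -/
def shift {G : Type} [Group G] (h : G) (ω : Cfg G) : Cfg G := fun e => ω (e.1 * h, e.2)

/-- invariant measure -/
def Inv {G : Type} [Group G] (ν : Measure (Cfg G)) : Prop := ∀ h : G, ν.map (shift h) = ν

/-- expected number of edges per vertex -/
noncomputable def cost {G : Type} [Group G] (ν : Measure (Cfg G)) : ENNReal :=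
  ∑' s : G, ν {ω | ω (1, s) = true}

/-- over the relation generated by the labels in `B`, the labels in `S` can be connected with a
random set of edges of density at most `c` -/
def RC {G : Type} [Group G] (B S : Set G) (c : ENNReal) : Prop :=
  ∃ ν : Measure (Cfg G), IsProbabilityMeasure ν ∧ Inv ν ∧ cost ν ≤ c ∧
    ∀ᵐ ω ∂ν, ∀ g : G, ∀ s ∈ S, Conn B ω g (s * g)

/-- the Bernoulli measure on `Bool` -/
noncomputable def bern (p : unitInterval) : Measure Bool :=
  ENNReal.ofReal p • Measure.dirac true + ENNReal.ofReal (1 - p) • Measure.dirac false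

instance (p : unitInterval) : IsProbabilityMeasure (bern p) := by
  constructor
  simp only [bern, Measure.coe_add, Measure.coe_smul, Pi.add_apply, Pi.smul_apply, smul_eq_mul,
    measure_univ, mul_one]
  rw [← ENNReal.ofReal_add p.2.1 (by linarith [p.2.2])]
  simp

/-- independent percolation: the edge `(g, s)` is present with probability `p s` -/
noncomputable def perc {G : Type} (p : G → unitInterval) : Measure (Cfg G) :=
  Measure.infinitePi (fun e : G × G => bern (p e.2))

instance {G : Type} (p : G → unitInterval) : IsProbabilityMeasure (perc p) := by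
  unfold perc; infer_instance

def S_percInv : Prop := ∀ (G : Type) [Group G] [Countable G] (p : G → unitInterval), Inv (perc p)

/-- resampling one coordinate -/
def S_resample : Prop := ∀ (G : Type) [DecidableEq G] [Countable G] (p : G → unitInterval)
  (e : G × G),
  ((perc p).prod (bern (p e.2))).map (fun q : Cfg G × Bool => Function.update q.1 e q.2) = perc p

/-- infinitely many disjoint bounded sets of edges: one of them is open -/
def S_open : Prop := ∀ (G : Type) [Countable G] (p : G → unitInterval) (g : G), 0 < (p g : ℝ) →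
  ∀ (N : ℕ) (Z : ℕ → Finset (G × G)), (∀ i j, i ≠ j → Disjoint (Z i) (Z j)) →
    (∀ i, (Z i).card ≤ N) → (∀ i, ∀ e ∈ Z i, e.2 = g) →
    ∀ᵐ ω ∂(perc p), ∃ i, ∀ e ∈ Z i, ω e = true

/-- Bounded exponent: infinitely many disjoint bounded detours for the edge `(1, g)`. -/
def S_detour : Prop := ∀ (G : Type) [Group G] (n : ℕ), 0 < n → (∀ x : G, x ^ n = 1) →
  ∀ M : Subgroup G, (M : Set G).Infinite → ∀ g : G,
    ∃ Z : ℕ → Finset (G × G), (∀ i j, i ≠ j → Disjoint (Z i) (Z j)) ∧
      (∀ i, (Z i).card ≤ 2 * n) ∧ (∀ i, ∀ e ∈ Z i, e.2 = g) ∧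
      ∀ i, ∀ ω : Cfg G, (∀ e ∈ Z i, ω e = true) → Conn (M : Set G) ω 1 g

/-- If every invariant `B`-forest with labels in `S` has cost at most `σ`, the labels in `S` can be
connected over `B` at cost `σ + ε`. -/
def S_fe : Prop := ∀ (G : Type) [Group G] [Countable G] [DecidableEq G] (B : Set G) (S : Finset G)
  (σ ε : ENNReal), 0 < ε →
  (∀ ν : Measure (Cfg G), IsProbabilityMeasure ν → Inv ν → (∀ᵐ ω ∂ν, Forest B ω) →
    (∀ᵐ ω ∂ν, ∀ g s : G, ω (g, s) = true → s ∈ S) → cost ν ≤ σ) →
  RC B (S : Set G) (σ + ε)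

/-- Realisation: countably many invariant random configurations which together connect everything
give a free action with a graphing of cost the sum of the costs. -/
def S_real : Prop := ∀ (G : Type) [Group G] [Countable G] (ν : ℕ → Measure (Cfg G))
  [∀ i, IsProbabilityMeasure (ν i)], (∀ i, Inv (ν i)) →
  (∀ᵐ ω ∂(Measure.infinitePi ν), ∀ g : G,
    Relation.EqvGen (fun a b : G => ∃ (i : ℕ) (s : G), ω i (a, s) = true ∧ b = s * a) 1 g) →
  ∃ (X : Type) (_ : MeasurableSpace X) (_ : StandardBorelSpace X) (μ : Measure X)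
    (_ : IsProbabilityMeasure μ) (_ : MulAction G X),
    (∀ g : G, MeasurePreserving (fun x : X => g • x) μ μ) ∧
    (∀ᵐ x ∂μ, ∀ g : G, g • x = x → g = 1) ∧
    ∃ (A : ℕ → Set X) (s : ℕ → G), (∀ i, MeasurableSet (A i)) ∧
      (∀ᵐ x ∂μ, ∀ g : G, Relation.ReflTransGen
        (fun y z : X => ∃ i, (y ∈ A i ∧ z = s i • y) ∨ (z ∈ A i ∧ y = s i • z)) x (g • x)) ∧
      ∑' i, μ (A i) = ∑' i, cost (ν i)

end Pool.Agent.W336.CS
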