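import Pool.Agent.W336.CS.Final
import Pool.Agent.W366.CS.Frob
import Pool.Agent.W366.CS.Find
import Pool.Agent.W366.CS.For
import Pool.Agent.W402.CS.Stab
import Pool.Agent.W402.CS.Hall
import Pool.Agent.W402.CS.Lower
import Pool.Agent.W22.CS.Fin
import Pool.Agent.W22.CS.FrobIn
import Pool.Agent.W22.CS.Cnt
import Pool.Agent.W261.CS.Comp
import Pool.Agent.W261.CS.Detour
import Pool.Agent.W401.CS.Real
import Pool.Agent.W361.CS.Fol

set_option autoImplicit false
set_option linter.unusedVariables false

open MeasureTheory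

namespace Pool.Agent.W336.CS

theorem all_lf : S_lf := W22.CS.lf (W22.CS.fin W402.CS.stab'
  (W22.CS.kappa W366.CS.frob W402.CS.stab') (W261.CS.comp W366.CS.frob)
  (W366.CS.find W366.CS.frob))

theorem all_fe : S_fe := fe W366.CS.forest_add W401.CS.percInv W401.CS.resample

/-- Groups all of whose 2-generated subgroups are amenable have cost at most 1. -/
theorem cost_le {G : Type} [Group G] [Countable G]
    (h2 : ∀ a b : G, Amen (Subgroup.closure ({a, b} : Set G)))
    (ε : ENNReal) (hε : 0 < ε) : CostLe G (1 + ε) :=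
  main1 all_lf W401.CS.real W22.CS.cnt all_fe W401.CS.percInv W401.CS.resample
    W401.CS.open_ae W261.CS.detour (fun a b => W361.CS.fol _ (h2 a b)) ε hε

/-- Countable groups of cost larger than 1 have a paradoxical decomposition with a half of three
pieces. -/
theorem half3' {G : Type} [Group G] [Countable G] (ε : ENNReal) (hε : 0 < ε)
    (hcost : ¬ CostLe G (1 + ε)) :
    ∃ (n : ℕ) (P : Fin 3 → Set G) (Q : Fin n → Set G) (g : Fin 3 → G) (h : Fin n → G),
      (∀ i j, i ≠ j → Disjoint (P i) (P j)) ∧
      (∀ i j, i ≠ j → Disjoint (Q i) (Q j)) ∧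
      (∀ i j, Disjoint (P i) (Q j)) ∧
      (⋃ i, (fun x : G => g i * x) '' P i) = Set.univ ∧
      (⋃ j, (fun x : G => h j * x) '' Q j) = Set.univ :=
  half3 all_lf W401.CS.real W22.CS.cnt all_fe W401.CS.percInv W401.CS.resample
    W401.CS.open_ae W261.CS.detour W402.CS.hall ε hε hcost

end Pool.Agent.W336.CS
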