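import Pool.Agent.W336.CS.Chain

set_option autoImplicit false
set_option linter.unusedVariables false

open MeasureTheory

namespace Pool.Agent.W336.CS

theorem inv_edge {G : Type} [Group G] {ν : Measure (Cfg G)} (hν : Inv ν) (x s : G) :
    ν {ω | ω (x, s) = true} = ν {ω | ω (1, s) = true} := by
  have hm : MeasurableSet {ω : Cfg G | ω (1, s) = true} :=
    measurableSet_eq_fun (measurable_pi_apply _) measurable_const
  have := (hν.mp x).measure_preimage hm.nullMeasurableSet
  rw [← this]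
  congr 1
  ext ω
  simp [shift]

/-- counting in expectation: if `Q ω e` implies bridge, its density is at most the expansion -/
theorem count_expect (hcnt : S_cnt) {G : Type} [Group G] [Countable G] [DecidableEq G]
    (B : Finset G) (ν : Measure (Cfg G)) [IsProbabilityMeasure ν]
    (D V : Finset G) (E : Finset (G × G)) (Q : G × G → Set (Cfg G))
    (hQm : ∀ e, MeasurableSet (Q e))
    (hQ : ∀ᵐ ω ∂ν, ∀ e, ω ∈ Q e → ω e = true ∧ Bridge (B : Set G) ω e)
    (hE : ∀ e ∈ E, e.1 ∈ D ∧ e.2 * e.1 ∈ V) (hDV : D ⊆ V) (hBV : ∀ b ∈ B, ∀ x ∈ D, b * x ∈ V) :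
    ∑ e ∈ E, (ν (Q e)).toReal ≤
      ((V \ D).card : ℝ) + D.card / Nat.card (Subgroup.closure (B : Set G)) := by
  classical
  set R : ℝ := ((V \ D).card : ℝ) + D.card / Nat.card (Subgroup.closure (B : Set G)) with hR
  have hR0 : 0 ≤ R := by positivity
  have h1 : ∀ᵐ ω ∂ν, ∑ e ∈ E, (Q e).indicator (fun _ => (1 : ENNReal)) ω ≤ ENNReal.ofReal R := by
    filter_upwards [hQ] with ω hω
    have h2 := hcnt G B D V ω (E.filter (fun e => ω ∈ Q e)) (by
      intro e he
      rw [Finset.mem_filter] at he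
      exact ⟨(hE e he.1).1, (hE e he.1).2, (hω e he.2).1, (hω e he.2).2⟩) hDV hBV
    have h3 : ∑ e ∈ E, (Q e).indicator (fun _ => (1 : ENNReal)) ω =
        ((E.filter (fun e => ω ∈ Q e)).card : ENNReal) := by
      simp only [Set.indicator_apply]
      rw [Finset.sum_ite]
      simp
    rw [h3, ← ENNReal.ofReal_natCast]
    exact ENNReal.ofReal_le_ofReal h2
  have h4 : ∑ e ∈ E, ν (Q e) ≤ ENNReal.ofReal R := by
    calc ∑ e ∈ E, ν (Q e) = ∑ e ∈ E, ∫⁻ ω, (Q e).indicator (fun _ => (1 : ENNReal)) ω ∂ν := by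
          refine Finset.sum_congr rfl (fun e _ => ?_)
          rw [lintegral_indicator_const (hQm e), one_mul]
      _ = ∫⁻ ω, ∑ e ∈ E, (Q e).indicator (fun _ => (1 : ENNReal)) ω ∂ν := by
          rw [lintegral_finsetSum]
          intro e _
          exact measurable_const.indicator (hQm e)
      _ ≤ ∫⁻ ω, ENNReal.ofReal R ∂ν := lintegral_mono_ae h1
      _ = ENNReal.ofReal R := by simp
  have h5 : ∑ e ∈ E, (ν (Q e)).toReal = (∑ e ∈ E, ν (Q e)).toReal := by
    rw [ENNReal.toReal_sum (fun e _ => measure_ne_top _ _)]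
  rw [h5]
  exact ENNReal.toReal_le_of_le_ofReal hR0 h4

/-- Relative cost for amenable groups. -/
theorem rc_amen (hcnt : S_cnt) (hfe : S_fe) {G : Type} [Group G] [Countable G]
    (B S : Finset G) (hF : Fol (Subgroup.closure ((B : Set G) ∪ S)))
    (ε : ENNReal) (hε : 0 < ε) :
    RC (B : Set G) (S : Set G)
      (ENNReal.ofReal (1 / Nat.card (Subgroup.closure (B : Set G))) + ε) := by
  classical
  refine hfe G B S _ ε hε ?_
  intro ν hνp hνi hνf hνS
  set σ : ℝ := 1 / Nat.card (Subgroup.closure (B : Set G)) with hσ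
  have hσ0 : 0 ≤ σ := by positivity
  -- the cost is a finite sum
  have hzero : ∀ s ∉ S, ν {ω | ω (1, s) = true} = 0 := by
    intro s hs
    rw [measure_eq_zero_iff_ae_notMem]
    filter_upwards [hνS] with ω hω h
    exact hs (hω 1 s h)
  have hcost : cost ν = ∑ s ∈ S, ν {ω | ω (1, s) = true} := tsum_eq_sum (fun s hs => hzero s hs)
  have hcosttop : cost ν ≠ ⊤ := by
    rw [hcost]
    exact ENNReal.sum_ne_top.2 (fun s _ => measure_ne_top _ _)
  rw [← ENNReal.ofReal_toReal hcosttop]
  refine ENNReal.ofReal_le_ofReal ?_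
  refine le_of_forall_pos_le_add (fun δ hδ => ?_)
  set W := Subgroup.closure ((B : Set G) ∪ S) with hW
  have hBW : ∀ b ∈ B, b ∈ W := fun b hb => Subgroup.subset_closure (Or.inl hb)
  have hSW : ∀ b ∈ S, b ∈ W := fun b hb => Subgroup.subset_closure (Or.inr hb)
  -- Folner set
  let T : Finset W := ((B ∪ S).attach).image (fun t => ⟨t.1, by
    rcases Finset.mem_union.1 t.2 with h | h
    · exact hBW _ h
    · exact hSW _ h⟩)
  obtain ⟨F, hFne, hF'⟩ := hF T (δ / (T.card + 1)) (by positivity)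
  let D : Finset G := F.image (fun x : W => (x : G))
  have hDcard : D.card = F.card := Finset.card_image_of_injective _ Subtype.val_injective
  let V : Finset G := D ∪ (T.biUnion (fun t => F.image (fun x : W => (t : G) * x)))
  have hDV : D ⊆ V := Finset.subset_union_left
  have hTV : ∀ t : W, t ∈ T → ∀ x ∈ D, (t : G) * x ∈ V := by
    intro t ht x hx
    obtain ⟨y, hy, rfl⟩ := Finset.mem_image.1 hx
    exact Finset.mem_union_right _ (Finset.mem_biUnion.2 ⟨t, ht, Finset.mem_image.2 ⟨y, hy, rfl⟩⟩)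
  have hTB : ∀ b ∈ B, ∃ t : W, t ∈ T ∧ (t : G) = b := fun b hb =>
    ⟨⟨b, hBW b hb⟩, Finset.mem_image.2 ⟨⟨b, Finset.mem_union_left _ hb⟩, Finset.mem_attach _ _, rfl⟩,
      rfl⟩
  have hTS : ∀ b ∈ S, ∃ t : W, t ∈ T ∧ (t : G) = b := fun b hb =>
    ⟨⟨b, hSW b hb⟩, Finset.mem_image.2 ⟨⟨b, Finset.mem_union_right _ hb⟩, Finset.mem_attach _ _, rfl⟩,
      rfl⟩
  have hVD : ((V \ D).card : ℝ) ≤ δ * F.card := by
    have hsub : V \ D ⊆ T.biUnion (fun t => (F.filter (fun x => t * x ∉ F)).image
        (fun x : W => (t : G) * x)) := by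
      intro v hv
      rw [Finset.mem_sdiff, Finset.mem_union] at hv
      obtain ⟨h1 | h1, h2⟩ := hv
      · exact absurd h1 h2
      · rw [Finset.mem_biUnion] at h1 ⊢
        obtain ⟨t, ht, h1⟩ := h1
        obtain ⟨x, hx, rfl⟩ := Finset.mem_image.1 h1
        refine ⟨t, ht, Finset.mem_image.2 ⟨x, Finset.mem_filter.2 ⟨hx, fun h => h2 ?_⟩, rfl⟩⟩
        exact Finset.mem_image.2 ⟨t * x, h, rfl⟩
    have h1 : (V \ D).card ≤ ∑ t ∈ T, (F.filter (fun x => t * x ∉ F)).card :=
      (Finset.card_le_card hsub).trans (Finset.card_biUnion_le.trans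
        (Finset.sum_le_sum (fun t _ => Finset.card_image_le)))
    calc ((V \ D).card : ℝ) ≤ ((∑ t ∈ T, (F.filter (fun x => t * x ∉ F)).card : ℕ) : ℝ) := by
          exact_mod_cast h1
      _ = ∑ t ∈ T, ((F.filter (fun x => t * x ∉ F)).card : ℝ) := by push_cast; rfl
      _ ≤ ∑ t ∈ T, δ / (T.card + 1) * F.card := by
          refine Finset.sum_le_sum (fun t ht => ?_)
          have := hF' t ht
          rwa [← Set.ncard_coe_finset, Finset.coe_filter]
      _ = T.card * (δ / (T.card + 1) * F.card) := by rw [Finset.sum_const, nsmul_eq_mul]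
      _ = (T.card / (T.card + 1)) * (δ * F.card) := by ring
      _ ≤ 1 * (δ * F.card) := by
          gcongr
          rw [div_le_one (by positivity)]
          linarith
      _ = δ * F.card := one_mul _
  -- counting
  have hcount := count_expect hcnt B ν D V (D ×ˢ S) (fun e => {ω | ω e = true})
    (fun e => measurableSet_eq_fun (measurable_pi_apply _) measurable_const)
    (by
      filter_upwards [hνf] with ω hω e he
      exact ⟨he, hω e he⟩)
    (by
      rintro ⟨x, s⟩ he
      rw [Finset.mem_product] at he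
      obtain ⟨t, ht, hts⟩ := hTS s he.2
      refine ⟨he.1, ?_⟩
      show s * x ∈ V
      rw [← hts]
      exact hTV t ht x he.1)
    hDV
    (by
      intro b hb x hx
      obtain ⟨t, ht, rfl⟩ := hTB b hb
      exact hTV t ht x hx)
  have hsum : ∑ e ∈ D ×ˢ S, (ν {ω | ω e = true}).toReal = F.card * (cost ν).toReal := by
    rw [Finset.sum_product, hcost, ENNReal.toReal_sum (fun s _ => measure_ne_top _ _)]
    simp only [inv_edge hνi]
    rw [Finset.sum_const, nsmul_eq_mul, hDcard]
  rw [hsum, hDcard] at hcount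
  have hFpos : (0 : ℝ) < F.card := by exact_mod_cast hFne.card_pos
  have : F.card * (cost ν).toReal ≤ F.card * (σ + δ) := by
    calc F.card * (cost ν).toReal ≤ ((V \ D).card : ℝ) +
          F.card / Nat.card (Subgroup.closure (B : Set G)) := hcount
      _ ≤ δ * F.card + F.card / Nat.card (Subgroup.closure (B : Set G)) := by gcongr
      _ = F.card * (σ + δ) := by rw [hσ]; ring
  exact le_of_mul_le_mul_left this hFpos

end Pool.Agent.W336.CS
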