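import Pool.Agent.W336.CS.Stmts

set_option autoImplicit false
set_option linter.unusedVariables false

open MeasureTheory

namespace Pool.Agent.W336.CS

section conn

variable {G : Type} [Group G]

theorem Conn.refl (B : Set G) (ω : Cfg G) (a : G) : Conn B ω a a := Relation.EqvGen.refl a

theorem Conn.symm {B : Set G} {ω : Cfg G} {a b : G} (h : Conn B ω a b) : Conn B ω b a :=
  Relation.EqvGen.symm _ _ h

theorem Conn.trans {B : Set G} {ω : Cfg G} {a b c : G} (h : Conn B ω a b) (h' : Conn B ω b c) :
    Conn B ω a c := Relation.EqvGen.trans _ _ _ h h'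

theorem Conn.of_adj {B : Set G} {ω : Cfg G} {a b : G} (h : adj B ω a b) : Conn B ω a b :=
  Relation.EqvGen.rel _ _ h

theorem Conn.base {B : Set G} {ω : Cfg G} {u : G} (hu : u ∈ B) (a : G) : Conn B ω a (u * a) :=
  Conn.of_adj (Or.inl ⟨u, hu, rfl⟩)

theorem Conn.edge {B : Set G} {ω : Cfg G} {a s : G} (h : ω (a, s) = true) :
    Conn B ω a (s * a) := Conn.of_adj (Or.inr ⟨s, h, rfl⟩)

/-- If `C` is an equivalence relation containing the adjacency, it contains `Conn`. -/
theorem Conn.lift {B : Set G} {ω : Cfg G} (C : G → G → Prop) (hr : ∀ a, C a a)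
    (hs : ∀ a b, C a b → C b a) (ht : ∀ a b c, C a b → C b c → C a c)
    (hB : ∀ u ∈ B, ∀ a, C a (u * a)) (hω : ∀ a s, ω (a, s) = true → C a (s * a)) {a b : G}
    (h : Conn B ω a b) : C a b := by
  induction h with
  | rel x y h =>
    rcases h with ⟨u, hu, rfl⟩ | ⟨s, hs', rfl⟩
    · exact hB u hu x
    · exact hω x s hs'
  | refl x => exact hr x
  | symm x y _ ih => exact hs _ _ ih
  | trans x y z _ _ ih1 ih2 => exact ht _ _ _ ih1 ih2

theorem Conn.hull {B B' : Set G} {ω ω' : Cfg G} (hB : ∀ u ∈ B, ∀ a, Conn B' ω' a (u * a))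
    (hω : ∀ a s, ω (a, s) = true → Conn B' ω' a (s * a)) {a b : G}
    (h : Conn B ω a b) : Conn B' ω' a b :=
  Conn.lift (Conn B' ω') (Conn.refl _ _) (fun _ _ h => h.symm) (fun _ _ _ h h' => h.trans h')
    hB hω h

theorem Conn.mono {B B' : Set G} {ω ω' : Cfg G} (hB : B ⊆ B')
    (hω : ∀ e, ω e = true → ω' e = true) {a b : G}
    (h : Conn B ω a b) : Conn B' ω' a b :=
  Conn.hull (fun u hu a => Conn.base (hB hu) a) (fun a s h => Conn.edge (hω _ h)) h

/-- connecting all labels of `S` connects all labels in the generated subgroup -/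
theorem Conn.closure {B S : Set G} {ω : Cfg G} (h : ∀ a, ∀ s ∈ S, Conn B ω a (s * a)) {u : G}
    (hu : u ∈ Subgroup.closure S) : ∀ a, Conn B ω a (u * a) := by
  induction hu using Subgroup.closure_induction with
  | mem x hx => exact fun a => h a x hx
  | one => intro a; rw [one_mul]; exact Conn.refl _ _ _
  | mul x y _ _ ihx ihy =>
    intro a; rw [mul_assoc]; exact (ihy a).trans (ihx (y * a))
  | inv x _ ih =>
    intro a
    have := ih (x⁻¹ * a)
    rw [mul_inv_cancel_left] at this
    exact this.symm

theorem Conn.closure_base {B : Set G} {ω : Cfg G} {a b : G} :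
    Conn (Subgroup.closure B : Set G) ω a b ↔ Conn B ω a b := by
  constructor
  · exact Conn.hull (fun u hu => Conn.closure (fun a s hs => Conn.base hs a) hu)
      (fun a s h => Conn.edge h)
  · exact Conn.mono Subgroup.subset_closure (fun _ h => h)

theorem shift_shift (h k : G) (ω : Cfg G) : shift h (shift k ω) = shift (h * k) ω := by
  funext e; simp [shift, mul_assoc]

theorem shift_one (ω : Cfg G) : shift 1 ω = ω := by
  funext e; simp [shift]

theorem conn_shift_imp {B : Set G} {ω : Cfg G} {h a b : G} (H : Conn B (shift h ω) a b) :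
    Conn B ω (a * h) (b * h) := by
  refine Conn.lift (fun a b => Conn B ω (a * h) (b * h)) (fun a => Conn.refl _ _ _)
    (fun _ _ h => h.symm) (fun _ _ _ h h' => h.trans h') ?_ ?_ H
  · intro u hu a
    show Conn B ω (a * h) (u * a * h)
    rw [mul_assoc]; exact Conn.base hu _
  · intro a s hs
    show Conn B ω (a * h) (s * a * h)
    rw [mul_assoc]; exact Conn.edge hs

theorem conn_shift {B : Set G} {ω : Cfg G} {h a b : G} :
    Conn B (shift h ω) a b ↔ Conn B ω (a * h) (b * h) := by
  constructor
  · exact conn_shift_imp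
  · intro H
    have : ω = shift h⁻¹ (shift h ω) := by rw [shift_shift, inv_mul_cancel, shift_one]
    rw [this] at H
    have := conn_shift_imp H
    simpa [mul_assoc] using this

end conn

section meas

variable {G : Type} [Group G]

theorem measurable_shift (h : G) : Measurable (shift h : Cfg G → Cfg G) :=
  measurable_pi_lambda _ (fun e => measurable_pi_apply _)

/-- connected by a path of length `n` -/
def ConnN (B : Set G) (ω : Cfg G) : ℕ → G → G → Prop
  | 0, a, b => a = b
  | n + 1, a, b => ∃ c, ConnN B ω n a c ∧ (adj B ω c b ∨ adj B ω b c)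

theorem connN_of_conn {B : Set G} {ω : Cfg G} {a b : G} :
    Conn B ω a b ↔ ∃ n, ConnN B ω n a b := by
  have htrans : ∀ n m a b c, ConnN B ω n a b → ConnN B ω m b c → ConnN B ω (n + m) a c := by
    intro n m
    induction m with
    | zero => intro a b c h h'; cases h'; exact h
    | succ m ih =>
      rintro a b c h ⟨d, hd, hd'⟩
      exact ⟨d, ih a b d h hd, hd'⟩
  have hsymm : ∀ n a b, ConnN B ω n a b → ConnN B ω n b a := by
    intro n
    induction n with
    | zero => intro a b h; exact h.symm
    | succ n ih =>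
      rintro a b ⟨c, hc, hc'⟩
      have h1 : ConnN B ω 1 b c := ⟨b, rfl, hc'.symm⟩
      have := htrans 1 n b c a h1 (ih a c hc)
      rwa [add_comm] at this
  constructor
  · intro h
    induction h with
    | rel x y h => exact ⟨1, x, rfl, Or.inl h⟩
    | refl x => exact ⟨0, rfl⟩
    | symm x y _ ih => obtain ⟨n, hn⟩ := ih; exact ⟨n, hsymm _ _ _ hn⟩
    | trans x y z _ _ ih1 ih2 =>
      obtain ⟨n, hn⟩ := ih1; obtain ⟨m, hm⟩ := ih2
      exact ⟨n + m, htrans _ _ _ _ _ hn hm⟩
  · rintro ⟨n, hn⟩
    induction n generalizing b with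
    | zero => cases hn; exact Conn.refl _ _ _
    | succ n ih =>
      obtain ⟨c, hc, hc' | hc'⟩ := hn
      · exact (ih hc).trans (Conn.of_adj hc')
      · exact (ih hc).trans (Conn.of_adj hc').symm

theorem measurableSet_adj [Countable G] (B : Set G) (a b : G) :
    MeasurableSet {ω : Cfg G | adj B ω a b} := by
  have : {ω : Cfg G | adj B ω a b} = {ω : Cfg G | ∃ u ∈ B, b = u * a} ∪
      ⋃ s : G, {ω : Cfg G | ω (a, s) = true} ∩ {ω | b = s * a} := by
    ext ω; simp [adj]
  rw [this]
  refine (MeasurableSet.const _).union ?_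
  refine MeasurableSet.iUnion (fun s => ?_)
  exact (measurableSet_eq_fun (measurable_pi_apply _) measurable_const).inter
    (MeasurableSet.const _)

theorem measurableSet_connN [Countable G] (B : Set G) (n : ℕ) (a b : G) :
    MeasurableSet {ω : Cfg G | ConnN B ω n a b} := by
  induction n generalizing b with
  | zero => exact MeasurableSet.const _
  | succ n ih =>
    have : {ω : Cfg G | ConnN B ω (n + 1) a b} = ⋃ c : G, {ω : Cfg G | ConnN B ω n a c} ∩
        ({ω | adj B ω c b} ∪ {ω | adj B ω b c}) := by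
      ext ω
      simp [ConnN]
    rw [this]
    exact MeasurableSet.iUnion (fun c => (ih c).inter
      ((measurableSet_adj _ _ _).union (measurableSet_adj _ _ _)))

theorem measurableSet_conn [Countable G] (B : Set G) (a b : G) :
    MeasurableSet {ω : Cfg G | Conn B ω a b} := by
  have : {ω : Cfg G | Conn B ω a b} = ⋃ n, {ω : Cfg G | ConnN B ω n a b} := by
    ext ω; simp [connN_of_conn]
  rw [this]
  exact MeasurableSet.iUnion (fun n => measurableSet_connN _ _ _ _)

theorem Inv.mp {ν : Measure (Cfg G)} (h : Inv ν) (g : G) : MeasurePreserving (shift g) ν ν :=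
  ⟨measurable_shift g, h g⟩

end meas

end Pool.Agent.W336.CS
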