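import Pool.Agent.W336.CS.Basic

set_option autoImplicit false
set_option linter.unusedVariables false

open MeasureTheory

namespace Pool.Agent.W336.CS

/-- There is an essentially free pmp action of `G` on a standard Borel probability space with a
graphing of cost at most `c`, given by restrictions of group elements. -/
def CostLe (G : Type) [Group G] (c : ENNReal) : Prop :=
  ∃ (X : Type) (_ : MeasurableSpace X) (_ : StandardBorelSpace X) (μ : Measure X)
    (_ : IsProbabilityMeasure μ) (_ : MulAction G X),
    (∀ g : G, MeasurePreserving (fun x : X => g • x) μ μ) ∧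
    (∀ᵐ x ∂μ, ∀ g : G, g • x = x → g = 1) ∧
    ∃ (A : ℕ → Set X) (s : ℕ → G), (∀ i, MeasurableSet (A i)) ∧
      (∀ᵐ x ∂μ, ∀ g : G, Relation.ReflTransGen
        (fun y z : X => ∃ i, (y ∈ A i ∧ z = s i • y) ∨ (z ∈ A i ∧ y = s i • z)) x (g • x)) ∧
      ∑' i, μ (A i) ≤ c

theorem CostLe.mono {G : Type} [Group G] {c c' : ENNReal} (h : CostLe G c) (hc : c ≤ c') :
    CostLe G c' := by
  obtain ⟨X, h1, h2, μ, h3, h4, h5, h6, A, s, h7, h8, h9⟩ := h
  exact ⟨X, h1, h2, μ, h3, h4, h5, h6, A, s, h7, h8, h9.trans hc⟩

theorem closure_rel {G : Type} [Group G] (C : G → G → Prop) (hr : ∀ a, C a a)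
    (hs : ∀ a b, C a b → C b a) (ht : ∀ a b c, C a b → C b c → C a c) {S : Set G}
    (h : ∀ a, ∀ s ∈ S, C a (s * a)) {u : G}
    (hu : u ∈ Subgroup.closure S) : ∀ a, C a (u * a) := by
  induction hu using Subgroup.closure_induction with
  | mem x hx => exact fun a => h a x hx
  | one => intro a; rw [one_mul]; exact hr _
  | mul x y _ _ ihx ihy =>
    intro a; rw [mul_assoc]; exact ht _ _ _ (ihy a) (ihx (y * a))
  | inv x _ ih =>
    intro a
    have := ih (x⁻¹ * a)
    rw [mul_inv_cancel_left] at this
    exact hs _ _ this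

theorem chain (hreal : S_real) {G : Type} [Group G] [Countable G] {ι : Type} (e : ι ≃ ℕ)
    (r : ι → ι → Prop) (hwf : WellFounded r) (B S : ι → Set G) (c : ι → ENNReal)
    (hRC : ∀ i, RC (B i) (S i) (c i))
    (hB : ∀ i, ∀ u ∈ B i, u ∈ Subgroup.closure (⋃ j, ⋃ (_ : r j i), S j))
    (hgen : Subgroup.closure (⋃ j, S j) = ⊤) : CostLe G (∑' i, c i) := by
  choose ν hνp hνi hνc hν using hRC
  have : ∀ n : ℕ, IsProbabilityMeasure (ν (e.symm n)) := fun n => hνp _
  obtain ⟨X, h1, h2, μ, h3, h4, h5, h6, A, s, h7, h8, h9⟩ :=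
    hreal G (fun n => ν (e.symm n)) (fun n => hνi _) (by
      have hae : ∀ᵐ ω ∂(Measure.infinitePi (fun n => ν (e.symm n))), ∀ n : ℕ, ∀ g : G,
          ∀ s ∈ S (e.symm n), Conn (B (e.symm n)) (ω n) g (s * g) := by
        rw [ae_all_iff]
        intro n
        exact (measurePreserving_eval_infinitePi (fun n => ν (e.symm n)) n).quasiMeasurePreserving.ae
          (hν (e.symm n))
      filter_upwards [hae] with ω hω
      set C : G → G → Prop :=
        Relation.EqvGen (fun a b : G => ∃ (i : ℕ) (s : G), ω i (a, s) = true ∧ b = s * a) with hC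
      have hr : ∀ a, C a a := fun a => Relation.EqvGen.refl a
      have hs : ∀ a b, C a b → C b a := fun a b h => Relation.EqvGen.symm _ _ h
      have ht : ∀ a b c, C a b → C b c → C a c := fun a b c h h' => Relation.EqvGen.trans _ _ _ h h'
      have key : ∀ i, ∀ a, ∀ s ∈ S i, C a (s * a) := by
        intro i
        induction i using hwf.induction with
        | _ i ih =>
          intro a s hs'
          have h1 := hω (e i) a s (by simpa using hs')
          rw [e.symm_apply_apply] at h1
          refine Conn.lift C hr hs ht ?_ ?_ h1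
          · intro u hu a
            refine closure_rel C hr hs ht ?_ (hB i u hu) a
            intro a t ht'
            simp only [Set.mem_iUnion] at ht'
            obtain ⟨j, hj, hj'⟩ := ht'
            exact ih j hj a t hj'
          · intro a s h
            exact Relation.EqvGen.rel _ _ ⟨e i, s, h, rfl⟩
      intro g
      have := closure_rel C hr hs ht (S := ⋃ j, S j) (by
        intro a t ht'
        simp only [Set.mem_iUnion] at ht'
        obtain ⟨j, hj⟩ := ht'
        exact key j a t hj) (u := g) (by rw [hgen]; trivial) 1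
      rwa [mul_one] at this)
  refine ⟨X, h1, h2, μ, h3, h4, h5, h6, A, s, h7, h8, ?_⟩
  rw [h9]
  calc ∑' n : ℕ, cost (ν (e.symm n)) ≤ ∑' n : ℕ, c (e.symm n) :=
        ENNReal.tsum_le_tsum (fun n => hνc _)
    _ = ∑' i, c i := e.symm.tsum_eq c

theorem RC.mono {G : Type} [Group G] {B S : Set G} {c c' : ENNReal} (h : RC B S c) (hc : c ≤ c') :
    RC B S c' := by
  obtain ⟨ν, h1, h2, h3, h4⟩ := h
  exact ⟨ν, h1, h2, h3.trans hc, h4⟩

theorem RC.closure_base {G : Type} [Group G] {B S : Set G} {c : ENNReal} :
    RC (Subgroup.closure B : Set G) S c ↔ RC B S c := by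
  unfold RC
  simp only [Conn.closure_base]

/-- nothing costs nothing -/
theorem RC.empty {G : Type} [Group G] (B : Set G) (c : ENNReal) : RC B ∅ c := by
  refine ⟨Measure.dirac (fun _ => false), inferInstance, ?_, ?_, ?_⟩
  · intro h
    rw [Measure.map_dirac' (measurable_shift h)]
    rfl
  · have h0 : ∀ s : G, (Measure.dirac (fun _ => false : Cfg G)) {ω : Cfg G | ω (1, s) = true} = 0 := by
      intro s
      rw [Measure.dirac_apply' _
        (measurableSet_eq_fun (measurable_pi_apply _) measurable_const)]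
      simp
    unfold cost
    simp only [h0, tsum_zero]
    exact zero_le
  · exact Filter.Eventually.of_forall (fun ω g s hs => absurd hs (by simp))

end Pool.Agent.W336.CS
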