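import Pool.Agent.W336.CS.Basic

set_option autoImplicit false
set_option linter.unusedVariables false

open MeasureTheory

namespace Pool.Agent.W336.CS

open Classical in
/-- the connectivity event for the edge `e` without using the `η`-value of `e` -/
def NC {G : Type} [Group G] (B : Set G) (ω η : Cfg G) (e : G × G) : Prop :=
  ¬ Conn B (fun e' => ω e' || Function.update η e false e') e.1 (e.2 * e.1)

section

variable {G : Type} [Group G]

theorem nc_iff [inst : DecidableEq G] {B : Set G} {ω η : Cfg G} {e : G × G} :
    NC B ω η e ↔ ¬ Conn B (fun e' => ω e' || Function.update η e false e') e.1 (e.2 * e.1) := by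
  have : inst = fun a b => Classical.propDecidable (a = b) := Subsingleton.elim _ _
  subst this
  unfold NC
  convert Iff.rfl

theorem nc_shift {B : Set G} {ω η : Cfg G} {a s h : G} :
    NC B (shift h ω) (shift h η) (a, s) ↔ NC B ω η (a * h, s) := by
  classical
  unfold NC
  have : (fun e' => shift h ω e' || Function.update (shift h η) (a, s) false e') =
      shift h (fun e' => ω e' || Function.update η (a * h, s) false e') := by
    funext e'
    simp only [shift, Function.update_apply, Prod.ext_iff, mul_left_inj]
  rw [this, conn_shift]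
  simp [mul_assoc]

theorem nc_update {B : Set G} {ω η : Cfg G} {e : G × G} [DecidableEq G] (b : Bool) :
    NC B ω (Function.update η e b) e ↔ NC B ω η e := by
  rw [nc_iff, nc_iff]
  simp

theorem measurableSet_nc [Countable G] (B : Set G) (e : G × G) :
    MeasurableSet {q : Cfg G × Cfg G | NC B q.1 q.2 e} := by
  classical
  have hm : Measurable (fun q : Cfg G × Cfg G =>
      (fun e' => q.1 e' || Function.update q.2 e false e' : Cfg G)) := by
    refine measurable_pi_lambda _ (fun e' => ?_)
    have h1 : Measurable (fun q : Cfg G × Cfg G => (q.1 e', Function.update q.2 e false e')) := by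
      refine Measurable.prodMk ((measurable_pi_apply e').comp measurable_fst) ?_
      by_cases h : e' = e
      · subst h; simp
      · simp only [Function.update_apply, h, if_false]
        exact (measurable_pi_apply e').comp measurable_snd
    exact (Measurable.of_discrete (f := fun b : Bool × Bool => b.1 || b.2)).comp h1
  have := hm (measurableSet_conn B e.1 (e.2 * e.1))
  exact this.compl

/-- adding the bridges -/
noncomputable def zet (B : Set G) (q : Cfg G × Cfg G) : Cfg G :=
  fun e => q.1 e || (q.2 e && @decide (NC B q.1 q.2 e) (Classical.propDecidable _))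

/-- adding all edges of `η` and all edges with labels in `S` which are not connected -/
noncomputable def kap (B : Set G) (S : Finset G) (q : Cfg G × Cfg G) : Cfg G :=
  fun e => q.1 e || (q.2 e || @decide (e.2 ∈ S ∧ NC B q.1 q.2 e) (Classical.propDecidable _))

theorem zet_shift (B : Set G) (h : G) (q : Cfg G × Cfg G) :
    zet B (shift h q.1, shift h q.2) = shift h (zet B q) := by
  funext ⟨a, s⟩
  show (q.1 (a * h, s) || (q.2 (a * h, s) && @decide (NC B (shift h q.1) (shift h q.2) (a, s))
    (Classical.propDecidable _))) = (q.1 (a * h, s) || (q.2 (a * h, s) &&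
      @decide (NC B q.1 q.2 (a * h, s)) (Classical.propDecidable _)))
  congr 2
  exact decide_eq_decide.2 nc_shift

theorem kap_shift (B : Set G) (S : Finset G) (h : G) (q : Cfg G × Cfg G) :
    kap B S (shift h q.1, shift h q.2) = shift h (kap B S q) := by
  funext ⟨a, s⟩
  show (q.1 (a * h, s) || (q.2 (a * h, s) || @decide (s ∈ S ∧ NC B (shift h q.1) (shift h q.2)
    (a, s)) (Classical.propDecidable _))) = (q.1 (a * h, s) || (q.2 (a * h, s) ||
      @decide (s ∈ S ∧ NC B q.1 q.2 (a * h, s)) (Classical.propDecidable _)))
  congr 2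
  exact decide_eq_decide.2 (by rw [nc_shift])

theorem measurable_zet [Countable G] (B : Set G) : Measurable (zet B : Cfg G × Cfg G → Cfg G) := by
  refine measurable_pi_lambda _ (fun e => ?_)
  have h3 : Measurable (fun q : Cfg G × Cfg G => @decide (NC B q.1 q.2 e)
      (Classical.propDecidable _)) := by
    refine measurable_to_bool ?_
    have : (fun q : Cfg G × Cfg G => @decide (NC B q.1 q.2 e)
      (Classical.propDecidable _)) ⁻¹' {true} = {q : Cfg G × Cfg G | NC B q.1 q.2 e} := by
      ext q; simp
    rw [this]; exact measurableSet_nc B e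
  have h1 : Measurable (fun q : Cfg G × Cfg G => (q.1 e, q.2 e, @decide (NC B q.1 q.2 e)
      (Classical.propDecidable _))) :=
    ((measurable_pi_apply e).comp measurable_fst).prodMk
      (((measurable_pi_apply e).comp measurable_snd).prodMk h3)
  exact (Measurable.of_discrete (f := fun b : Bool × Bool × Bool =>
    b.1 || (b.2.1 && b.2.2))).comp h1

theorem measurable_kap [Countable G] (B : Set G) (S : Finset G) :
    Measurable (kap B S : Cfg G × Cfg G → Cfg G) := by
  refine measurable_pi_lambda _ (fun e => ?_)
  have h3 : Measurable (fun q : Cfg G × Cfg G => @decide (e.2 ∈ S ∧ NC B q.1 q.2 e)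
      (Classical.propDecidable _)) := by
    refine measurable_to_bool ?_
    have : (fun q : Cfg G × Cfg G => @decide (e.2 ∈ S ∧ NC B q.1 q.2 e)
      (Classical.propDecidable _)) ⁻¹' {true} = {q | e.2 ∈ S} ∩
        {q : Cfg G × Cfg G | NC B q.1 q.2 e} := by
      ext q; simp
    rw [this]; exact (MeasurableSet.const _).inter (measurableSet_nc B e)
  have h1 : Measurable (fun q : Cfg G × Cfg G => (q.1 e, q.2 e, @decide
      (e.2 ∈ S ∧ NC B q.1 q.2 e) (Classical.propDecidable _))) :=
    ((measurable_pi_apply e).comp measurable_fst).prodMk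
      (((measurable_pi_apply e).comp measurable_snd).prodMk h3)
  exact (Measurable.of_discrete (f := fun b : Bool × Bool × Bool =>
    b.1 || (b.2.1 || b.2.2))).comp h1

/-- law of an equivariant function of two independent invariant configurations -/
theorem inv_map [Countable G] {ν π : Measure (Cfg G)} [IsProbabilityMeasure ν]
    [IsProbabilityMeasure π] (hν : Inv ν) (hπ : Inv π) {F : Cfg G × Cfg G → Cfg G}
    (hF : Measurable F) (hs : ∀ h q, F (shift h q.1, shift h q.2) = shift h (F q)) :
    Inv ((ν.prod π).map F) := by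
  intro h
  rw [Measure.map_map (measurable_shift h) hF]
  have h1 : shift h ∘ F = F ∘ (Prod.map (shift h) (shift h)) := by
    funext q; exact (hs h q).symm
  rw [h1, ← Measure.map_map hF ((measurable_shift h).prodMap (measurable_shift h)),
    ← Measure.map_prod_map _ _ (measurable_shift h) (measurable_shift h), hν h, hπ h]

omit [Group G] in
/-- independence of a coordinate and an event which does not depend on it -/
theorem perc_indep (hres : S_resample) [Countable G] [DecidableEq G] (p : G → unitInterval)
    (e : G × G) (Q : Set (Cfg G)) (hQ : MeasurableSet Q)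
    (hQ' : ∀ η b, Function.update η e b ∈ Q ↔ η ∈ Q) :
    perc p {η | η e = true ∧ η ∈ Q} = ENNReal.ofReal (p e.2) * perc p Q := by
  have hupd : Measurable (fun q : Cfg G × Bool => Function.update q.1 e q.2) := by
    refine measurable_pi_lambda _ (fun e' => ?_)
    by_cases h : e' = e
    · subst h; simpa using measurable_snd
    · simp only [Function.update_apply, h, if_false]
      exact (measurable_pi_apply e').comp measurable_fst
  have hm : MeasurableSet {η : Cfg G | η e = true ∧ η ∈ Q} :=
    (measurableSet_eq_fun (measurable_pi_apply _) measurable_const).inter hQ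
  conv_lhs => rw [← hres G p e]
  rw [Measure.map_apply hupd hm]
  have : (fun q : Cfg G × Bool => Function.update q.1 e q.2) ⁻¹'
      {η : Cfg G | η e = true ∧ η ∈ Q} = Q ×ˢ {true} := by
    ext ⟨η, b⟩
    simp only [Set.mem_preimage, Set.mem_ofPred_eq, Function.update_self, hQ', Set.mem_prod,
      Set.mem_singleton_iff]
    tauto
  rw [this, Measure.prod_prod, mul_comm]
  congr 1
  simp [bern]

theorem prod_perc_indep (hres : S_resample) [Countable G] [DecidableEq G] (ν : Measure (Cfg G))
    [IsProbabilityMeasure ν] (p : G → unitInterval) (B : Set G) (e : G × G) :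
    (ν.prod (perc p)) {q | q.2 e = true ∧ NC B q.1 q.2 e} =
      ENNReal.ofReal (p e.2) * (ν.prod (perc p)) {q | NC B q.1 q.2 e} := by
  have hm1 : MeasurableSet {q : Cfg G × Cfg G | q.2 e = true ∧ NC B q.1 q.2 e} :=
    (measurableSet_eq_fun ((measurable_pi_apply e).comp measurable_snd) measurable_const).inter
      (measurableSet_nc B e)
  rw [Measure.prod_apply hm1, Measure.prod_apply (measurableSet_nc B e),
    ← lintegral_const_mul _ (measurable_measure_prodMk_left (measurableSet_nc B e))]
  refine lintegral_congr (fun ω => ?_)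
  have := perc_indep hres p e {η | NC B ω η e}
    (measurable_prodMk_left (measurableSet_nc B e)) (fun η b => nc_update b)
  exact this

end

theorem fe (hfor : S_for) (hinv : S_percInv) (hres : S_resample) : S_fe := by
  intro G _ _ _ B S σ ε hε hσ
  classical
  -- degenerate cases
  rcases eq_or_ne σ ⊤ with rfl | hσtop
  · -- all edges with labels in `S`
    refine ⟨Measure.dirac (fun e => decide (e.2 ∈ S)), inferInstance, ?_, ?_, ?_⟩
    · intro h
      rw [Measure.map_dirac' (measurable_shift h)]
      rfl
    · simp
    · rw [ae_dirac_eq]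
      refine Filter.eventually_pure.2 ?_
      intro g s hs
      exact Conn.edge (by simpa using hs)
  -- the set of costs
  let 𝒞 : Set ENNReal := {c | ∃ ν : Measure (Cfg G), IsProbabilityMeasure ν ∧ Inv ν ∧
    (∀ᵐ ω ∂ν, Forest B ω) ∧ (∀ᵐ ω ∂ν, ∀ g s : G, ω (g, s) = true → s ∈ S) ∧ c = cost ν}
  have hle : ∀ c ∈ 𝒞, c ≤ σ := by
    rintro c ⟨ν, h1, h2, h3, h4, rfl⟩
    exact hσ ν h1 h2 h3 h4
  have hne : 𝒞.Nonempty := by
    refine ⟨_, Measure.dirac (fun _ => false), inferInstance, ?_, ?_, ?_, rfl⟩
    · intro h
      rw [Measure.map_dirac' (measurable_shift h)]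
      rfl
    · rw [ae_dirac_eq]
      refine Filter.eventually_pure.2 ?_
      intro e he
      simp at he
    · rw [ae_dirac_eq]
      refine Filter.eventually_pure.2 ?_
      intro g s he
      simp at he
  set τ := sSup 𝒞 with hτdef
  have hτσ : τ ≤ σ := sSup_le hle
  have hτtop : τ ≠ ⊤ := ne_top_of_le_ne_top hσtop hτσ
  -- choice of the percolation parameter
  obtain ⟨p, hp0, hp1, hpε⟩ : ∃ p : ℝ, 0 < p ∧ p ≤ 1 ∧ (S.card : ENNReal) * ENNReal.ofReal p ≤ ε / 2 := by
    rcases eq_or_ne ε ⊤ with rfl | hεt
    · exact ⟨1, one_pos, le_rfl, by simp [ENNReal.top_div]⟩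
    · have hε' : 0 < ε.toReal := ENNReal.toReal_pos hε.ne' hεt
      refine ⟨min 1 (ε.toReal / 2 / (S.card + 1)), lt_min one_pos (by positivity),
        min_le_left _ _, ?_⟩
      calc (S.card : ENNReal) * ENNReal.ofReal (min 1 (ε.toReal / 2 / (S.card + 1)))
          ≤ ENNReal.ofReal (S.card) * ENNReal.ofReal (ε.toReal / 2 / (S.card + 1)) := by
            rw [ENNReal.ofReal_natCast]
            gcongr
            exact min_le_right _ _
        _ = ENNReal.ofReal (S.card * (ε.toReal / 2 / (S.card + 1))) := by
            rw [ENNReal.ofReal_mul (by positivity)]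
        _ ≤ ENNReal.ofReal (ε.toReal / 2) := by
            apply ENNReal.ofReal_le_ofReal
            rw [mul_div_assoc', div_le_iff₀ (by positivity)]
            nlinarith
        _ = ε / 2 := by
            rw [ENNReal.ofReal_div_of_pos (by norm_num), ENNReal.ofReal_toReal hεt]
            norm_num
  set P := ENNReal.ofReal p with hPdef
  have hP0 : P ≠ 0 := by simp [hPdef, hp0]
  have hPt : P ≠ ⊤ := ENNReal.ofReal_ne_top
  -- choice of an almost optimal forest
  obtain ⟨ν, hνp, hνi, hνf, hνS, hντ⟩ : ∃ ν : Measure (Cfg G), IsProbabilityMeasure ν ∧ Inv ν ∧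
      (∀ᵐ ω ∂ν, Forest B ω) ∧ (∀ᵐ ω ∂ν, ∀ g s : G, ω (g, s) = true → s ∈ S) ∧
      τ ≤ cost ν + P * (ε / 2) := by
    rcases eq_or_ne τ 0 with h0 | h0
    · obtain ⟨c, ν, h1, h2, h3, h4, rfl⟩ := hne
      exact ⟨ν, h1, h2, h3, h4, by rw [h0]; exact zero_le⟩
    · have hpos : P * (ε / 2) ≠ 0 := by
        refine mul_ne_zero hP0 ?_
        simp [hε.ne']
      obtain ⟨c, ⟨ν, h1, h2, h3, h4, rfl⟩, hlt⟩ := exists_lt_of_lt_csSup hne
        (ENNReal.sub_lt_self hτtop h0 hpos)
      exact ⟨ν, h1, h2, h3, h4, tsub_le_iff_right.1 hlt.le⟩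
  have hcostle : cost ν ≤ σ := hσ ν hνp hνi hνf hνS
  have hcosttop : cost ν ≠ ⊤ := ne_top_of_le_ne_top hσtop hcostle
  -- percolation
  let pp : G → unitInterval := fun s => if s ∈ S then ⟨p, hp0.le, hp1⟩ else 0
  have hpp : ∀ s ∈ S, ENNReal.ofReal (pp s) = P := by
    intro s hs; simp [pp, hs, hPdef]
  have hπi : Inv (perc pp) := hinv G pp
  -- edges outside of S have probability 0
  have hπS : ∀ᵐ η ∂(perc pp), ∀ g s : G, η (g, s) = true → s ∈ S := by
    rw [ae_all_iff]; intro g
    rw [ae_all_iff]; intro s
    by_cases hs : s ∈ S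
    · exact Filter.Eventually.of_forall (fun _ _ => hs)
    · have := perc_indep hres pp (g, s) Set.univ MeasurableSet.univ (fun _ _ => by simp)
      simp only [Set.mem_univ, and_true, measure_univ, mul_one] at this
      have h0 : perc pp {η | η (g, s) = true} = 0 := by
        rw [this]; simp [pp, hs]
      rw [ae_iff]
      refine measure_mono_null ?_ h0
      intro η hη
      simp only [Set.mem_ofPred_eq, Classical.not_imp] at hη
      exact hη.1
  set m := ν.prod (perc pp) with hm
  have hmν : ∀ {Q : Cfg G → Prop}, (∀ᵐ ω ∂ν, Q ω) → ∀ᵐ q ∂m, Q q.1 := fun h =>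
    Measure.quasiMeasurePreserving_fst.ae h
  have hmπ : ∀ {Q : Cfg G → Prop}, (∀ᵐ ω ∂(perc pp), Q ω) → ∀ᵐ q ∂m, Q q.2 := fun h =>
    Measure.quasiMeasurePreserving_snd.ae h
  have hmfst : ∀ s, m {q | q.1 (1, s) = true} = ν {ω | ω (1, s) = true} := by
    intro s
    have : {q : Cfg G × Cfg G | q.1 (1, s) = true} = {ω : Cfg G | ω (1, s) = true} ×ˢ Set.univ := by
      ext q; simp
    rw [this, hm, Measure.prod_prod, measure_univ, mul_one]
  have hmsnd : ∀ s, m {q | q.2 (1, s) = true} = perc pp {ω | ω (1, s) = true} := by
    intro s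
    have : {q : Cfg G × Cfg G | q.2 (1, s) = true} = Set.univ ×ˢ {ω : Cfg G | ω (1, s) = true} := by
      ext q; simp
    rw [this, hm, Measure.prod_prod, measure_univ, one_mul]
  -- the larger forest
  have hzet : cost (m.map (zet B)) ≤ τ := by
    refine le_sSup ⟨m.map (zet B), Measure.isProbabilityMeasure_map (measurable_zet B).aemeasurable,
      inv_map hνi hπi (measurable_zet B) (zet_shift B), ?_, ?_, rfl⟩
    · have : ∀ᵐ q ∂m, Forest B (zet B q) := by
        filter_upwards [hmν hνf] with q hq
        refine hfor G B q.1 q.2 _ hq ?_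
        intro e
        simp only [zet, Bool.or_eq_true, Bool.and_eq_true, decide_eq_true_eq]
        rw [nc_iff]
      rw [ae_map_iff (measurable_zet B).aemeasurable]
      · exact this
      · -- measurability
        have : {ω : Cfg G | Forest B ω} = ⋂ e : G × G, ({ω : Cfg G | ω e = true} ∩
            {ω | NC B (fun _ => false) ω e}ᶜ)ᶜ := by
          ext ω
          simp only [Forest, Bridge, Set.mem_ofPred_eq, Set.mem_iInter, Set.mem_compl_iff,
            Set.mem_inter_iff, nc_iff, Bool.false_or]
          constructor
          · intro h e; rintro ⟨h1, h2⟩; exact h2 (h e h1)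
          · intro h e he h2; exact h e ⟨he, fun h3 => h3 h2⟩
        rw [this]
        refine MeasurableSet.iInter (fun e => ((measurableSet_eq_fun (measurable_pi_apply _)
          measurable_const).inter ?_).compl)
        have h2 : Measurable (fun ω : Cfg G => ((fun _ => false : Cfg G), ω)) :=
          measurable_prodMk_left
        exact (h2 (measurableSet_nc B e)).compl
    · have : ∀ᵐ q ∂m, ∀ g s : G, zet B q (g, s) = true → s ∈ S := by
        filter_upwards [hmν hνS, hmπ hπS] with q hq hq' g s h
        simp only [zet, Bool.or_eq_true, Bool.and_eq_true] at h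
        rcases h with h | h
        · exact hq g s h
        · exact hq' g s h.1
      rw [ae_map_iff (measurable_zet B).aemeasurable]
      · exact this
      · have : {ω : Cfg G | ∀ g s : G, ω (g, s) = true → s ∈ S} =
            ⋂ g : G, ⋂ s : G, ({ω : Cfg G | ω (g, s) = true} ∩ {ω | s ∉ S})ᶜ := by
          ext ω
          simp only [Set.mem_ofPred_eq, Set.mem_iInter, Set.mem_compl_iff, Set.mem_inter_iff]
          constructor
          · intro h g s; rintro ⟨h1, h2⟩; exact h2 (h g s h1)
          · intro h g s h1; by_contra h2; exact h g s ⟨h1, h2⟩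
        rw [this]
        exact MeasurableSet.iInter (fun g => MeasurableSet.iInter (fun s =>
          ((measurableSet_eq_fun (measurable_pi_apply _) measurable_const).inter
            (MeasurableSet.const _)).compl))
  -- the cost of the larger forest
  have hcz : cost (m.map (zet B)) = cost ν + ∑' s, m {q | q.2 (1, s) = true ∧ NC B q.1 q.2 (1, s)} := by
    unfold cost
    rw [← ENNReal.tsum_add]
    congr 1
    funext s
    rw [Measure.map_apply (measurable_zet B)
      (measurableSet_eq_fun (measurable_pi_apply _) measurable_const), ← hmfst s,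
      ← measure_union]
    · congr 1
      ext q
      simp [zet]
    · rw [Set.disjoint_left]
      intro q hq hq'
      refine hq'.2 (Conn.edge ?_)
      simp only [Set.mem_ofPred_eq] at hq
      simp [hq]
    · exact (measurableSet_eq_fun ((measurable_pi_apply _).comp measurable_snd)
        measurable_const).inter (measurableSet_nc B _)
  -- the nonconnected density
  have hnc : ∑ s ∈ S, m {q | NC B q.1 q.2 (1, s)} ≤ ε / 2 := by
    have h1 : cost ν + ∑' s, m {q | q.2 (1, s) = true ∧ NC B q.1 q.2 (1, s)} ≤
        cost ν + P * (ε / 2) := by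
      rw [← hcz]; exact hzet.trans hντ
    have h2 : ∑' s, m {q | q.2 (1, s) = true ∧ NC B q.1 q.2 (1, s)} ≤ P * (ε / 2) :=
      (ENNReal.add_le_add_iff_left hcosttop).1 h1
    have h3 : P * ∑ s ∈ S, m {q | NC B q.1 q.2 (1, s)} ≤ P * (ε / 2) := by
      refine le_trans ?_ h2
      rw [Finset.mul_sum]
      refine le_trans (le_of_eq ?_) (ENNReal.sum_le_tsum S)
      refine Finset.sum_congr rfl (fun s hs => ?_)
      rw [hm, prod_perc_indep hres ν pp B (1, s), hpp s hs]
    exact (ENNReal.mul_le_mul_iff_right hP0 hPt).1 h3
  -- conclusion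
  refine ⟨m.map (kap B S), Measure.isProbabilityMeasure_map (measurable_kap B S).aemeasurable,
    inv_map hνi hπi (measurable_kap B S) (kap_shift B S), ?_, ?_⟩
  · have hc1 : ∀ s, (m.map (kap B S)) {ω | ω (1, s) = true} ≤
        ν {ω | ω (1, s) = true} + (if s ∈ S then P + m {q | NC B q.1 q.2 (1, s)} else 0) := by
      intro s
      rw [Measure.map_apply (measurable_kap B S)
        (measurableSet_eq_fun (measurable_pi_apply _) measurable_const), ← hmfst s]
      have hsub : (kap B S) ⁻¹' {ω | ω (1, s) = true} ⊆ {q | q.1 (1, s) = true} ∪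
          ({q | q.2 (1, s) = true} ∪ {q | s ∈ S ∧ NC B q.1 q.2 (1, s)}) := by
        intro q hq
        simpa [kap] using hq
      refine (measure_mono hsub).trans ((measure_union_le _ _).trans ?_)
      gcongr
      refine (measure_union_le _ _).trans ?_
      have h4 := perc_indep hres pp (1, s) Set.univ MeasurableSet.univ (fun _ _ => by simp)
      simp only [Set.mem_univ, and_true, measure_univ, mul_one] at h4
      by_cases hs : s ∈ S
      · simp only [hs, if_true, true_and]
        gcongr
        rw [hmsnd, h4, hpp s hs]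
      · simp only [hs, if_false, false_and, Set.ofPred_false, measure_empty, add_zero]
        rw [hmsnd, h4]
        simp [pp, hs]
    calc cost (m.map (kap B S)) ≤ ∑' s, (ν {ω | ω (1, s) = true} +
          (if s ∈ S then P + m {q | NC B q.1 q.2 (1, s)} else 0)) := ENNReal.tsum_le_tsum hc1
      _ = cost ν + ∑ s ∈ S, (P + m {q | NC B q.1 q.2 (1, s)}) := by
          rw [ENNReal.tsum_add]
          congr 1
          rw [tsum_eq_sum (s := S) (fun s hs => by simp [hs])]
          exact Finset.sum_congr rfl (fun s hs => by simp [hs])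
      _ = cost ν + ((S.card : ENNReal) * P + ∑ s ∈ S, m {q | NC B q.1 q.2 (1, s)}) := by
          rw [Finset.sum_add_distrib, Finset.sum_const, nsmul_eq_mul]
      _ ≤ σ + (ε / 2 + ε / 2) := by gcongr
      _ = σ + ε := by rw [ENNReal.add_halves]
  · have : ∀ᵐ q ∂m, ∀ g : G, ∀ s ∈ (S : Set G), Conn B (kap B S q) g (s * g) := by
      refine Filter.Eventually.of_forall (fun q g s hs => ?_)
      by_cases h : NC B q.1 q.2 (g, s)
      · refine Conn.edge ?_
        simp only [kap, Bool.or_eq_true, decide_eq_true_eq]
        exact Or.inr (Or.inr ⟨hs, h⟩)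
      · rw [nc_iff, not_not] at h
        refine Conn.mono (Set.Subset.refl _) ?_ h
        intro e he
        simp only [kap, Bool.or_eq_true] at he ⊢
        rcases he with he | he
        · exact Or.inl he
        · by_cases h' : e = (g, s)
          · subst h'; simp at he
          · simp only [Function.update_apply, h', if_false] at he
            exact Or.inr (Or.inl he)
    rw [ae_map_iff (measurable_kap B S).aemeasurable]
    · exact this
    · have : {ω : Cfg G | ∀ g : G, ∀ s ∈ (S : Set G), Conn B ω g (s * g)} =
          ⋂ g : G, ⋂ s : G, ({ω | s ∈ S} ∩ {ω : Cfg G | Conn B ω g (s * g)}ᶜ)ᶜ := by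
        ext ω
        simp only [Set.mem_ofPred_eq, Set.mem_iInter, Set.mem_compl_iff, Set.mem_inter_iff,
          Finset.mem_coe]
        constructor
        · intro h g s; rintro ⟨h1, h2⟩; exact h2 (h g s h1)
        · intro h g s h1; by_contra h2; exact h g s ⟨h1, h2⟩
      rw [this]
      exact MeasurableSet.iInter (fun g => MeasurableSet.iInter (fun s =>
        ((MeasurableSet.const _).inter (measurableSet_conn _ _ _).compl).compl))

end Pool.Agent.W336.CS
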