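import Pool.Agent.W336.CS.Half

set_option autoImplicit false
set_option linter.unusedVariables false

open MeasureTheory

namespace Pool.Agent.W336.CS

/-- **Countable groups of cost larger than 1 contain an infinite 2-generated subgroup if all finite,
and a half of three pieces.** -/
theorem half3 (hlf : S_lf) (hreal : S_real) (hcnt : S_cnt) (hfe : S_fe) (hinv : S_percInv)
    (hres : S_resample) (hopen : S_open) (hdet : S_detour) (hhall : S_hall)
    {G : Type} [Group G] [Countable G] (ε : ENNReal) (hε : 0 < ε) (hcost : ¬ CostLe G (1 + ε)) :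
    ∃ (n : ℕ) (P : Fin 3 → Set G) (Q : Fin n → Set G) (g : Fin 3 → G) (h : Fin n → G),
      (∀ i j, i ≠ j → Disjoint (P i) (P j)) ∧
      (∀ i j, i ≠ j → Disjoint (Q i) (Q j)) ∧
      (∀ i j, Disjoint (P i) (Q j)) ∧
      (⋃ i, (fun x : G => g i * x) '' P i) = Set.univ ∧
      (⋃ j, (fun x : G => h j * x) '' Q j) = Set.univ := by
  have hex : ∃ a b : G, ¬ Fol (Subgroup.closure ({a, b} : Set G)) := by
    by_contra hcon
    push Not at hcon
    exact hcost (main1 hlf hreal hcnt hfe hinv hres hopen hdet hcon ε hε)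
  obtain ⟨a, b, hab⟩ := hex
  have hinf : (Subgroup.closure ({a, b} : Set G) : Set G).Infinite := by
    intro hfin
    have : Finite (Subgroup.closure ({a, b} : Set G)) := hfin.to_subtype
    exact hab (fol_finite _)
  obtain ⟨s, δ, hδ, hexp⟩ := expansion hreal hcnt hfe hinv hres a b hinf ε hε hcost
  exact hhall G a b s δ hδ hexp

/-- the hypothesis of the frozen statement implies that `CostLe` fails -/
theorem not_costLe {G : Type} [Group G] [Countable G]
    (h : ∃ c : ENNReal, 1 < c ∧
        ∀ (X : Type) [MeasurableSpace X] [StandardBorelSpace X] (μ : Measure X)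
          [IsProbabilityMeasure μ] [MulAction G X],
          (∀ g : G, MeasurePreserving (fun x : X => g • x) μ μ) →
          (∀ᵐ x ∂μ, ∀ g : G, g • x = x → g = 1) →
          ∀ (A : ℕ → Set X) (f : ℕ → X → G),
            (∀ i, MeasurableSet (A i)) →
            (∀ i, ∀ g : G, MeasurableSet {x : X | f i x = g}) →
            (∀ᵐ x ∂μ, ∀ g : G, Relation.ReflTransGen
              (fun y z : X => ∃ i, (y ∈ A i ∧ z = f i y • y) ∨ (z ∈ A i ∧ y = f i z • z))
              x (g • x)) →
            c ≤ ∑' i, μ (A i)) : ∃ ε : ENNReal, 0 < ε ∧ ¬ CostLe G (1 + ε) := by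
  obtain ⟨c, hc, h⟩ := h
  obtain ⟨d, hd1, hd2⟩ := exists_between hc
  refine ⟨d - 1, tsub_pos_of_lt hd1, ?_⟩
  rw [add_tsub_cancel_of_le hd1.le]
  rintro ⟨X, h1, h2, μ, h3, h4, h5, h6, A, s, h7, h8, h9⟩
  have := h X μ h5 h6 A (fun i _ => s i) h7 (fun i g => MeasurableSet.const _) h8
  exact absurd (this.trans h9) (not_le.2 hd2)

end Pool.Agent.W336.CS
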