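import Pool.Agent.W336.CS.Main1

set_option autoImplicit false
set_option linter.unusedVariables false

open MeasureTheory

namespace Pool.Agent.W336.CS

theorem measurableSet_bridge {G : Type} [Group G] [Countable G] [DecidableEq G] (B : Set G)
    (e : G × G) : MeasurableSet {ω : Cfg G | Bridge B ω e} := by
  have : {ω : Cfg G | Bridge B ω e} = {ω | NC B (fun _ => false) ω e} := by
    ext ω
    simp only [Bridge, Set.mem_ofPred_eq, nc_iff, Bool.false_or]
  rw [this]
  have h2 : Measurable (fun ω : Cfg G => ((fun _ => false : Cfg G), ω)) :=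
    measurable_prodMk_left
  exact h2 (measurableSet_nc B e)

theorem bridge_iff {G : Type} [Group G] [DecidableEq G] (B : Set G) (ω : Cfg G)
    (e : G × G) : Bridge B ω e ↔ NC B (fun _ => false) ω e := by
  simp only [Bridge, nc_iff, Bool.false_or]

theorem bridge_shift {G : Type} [Group G] [DecidableEq G] {B : Set G} {ω : Cfg G} {a s h : G} :
    Bridge B (shift h ω) (a, s) ↔ Bridge B ω (a * h, s) := by
  rw [bridge_iff, bridge_iff]
  exact nc_shift (ω := fun _ => false)

/-- In a group of cost larger than 1 with `⟨a, b⟩` infinite one has the expansion inequality. -/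
theorem expansion (hreal : S_real) (hcnt : S_cnt) (hfe : S_fe) (hinv : S_percInv)
    (hres : S_resample) {G : Type} [Group G] [Countable G] (a b : G)
    (hab : (Subgroup.closure ({a, b} : Set G) : Set G).Infinite)
    (ε : ENNReal) (hε : 0 < ε) (hcost : ¬ CostLe G (1 + ε)) :
    ∃ (s : G) (δ : ℝ), 0 < δ ∧
      ∀ C D V : Finset G, C ⊆ D → D ⊆ V → (∀ x ∈ D, a * x ∈ V ∧ b * x ∈ V) → (∀ x ∈ C, s * x ∈ V) →
        (D.card : ℝ) + δ * C.card ≤ V.card := by
  classical
  by_cases hcase : ∀ ν : Measure (Cfg G), IsProbabilityMeasure ν → Inv ν →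
      (∀ᵐ ω ∂ν, Forest ∅ ω) →
      (∀ᵐ ω ∂ν, ∀ g s : G, ω (g, s) = true → s ∈ ({a, b} : Finset G)) → cost ν ≤ 1
  · -- the relation of `⟨a, b⟩` can be generated with cost `1 + ε'`
    have hrc : ∀ ε' : ENNReal, 0 < ε' → RC (∅ : Set G) (({a, b} : Finset G) : Set G) (1 + ε') :=
      fun ε' hε' => hfe G ∅ {a, b} 1 ε' hε' hcase
    -- some `s` is not connected by percolation
    obtain ⟨s, p, hp0, hp⟩ : ∃ (s : G) (p : unitInterval), 0 < (p : ℝ) ∧
        ¬ ∀ᵐ ω ∂(perc (pOne s p)), Conn (({a, b} : Finset G) : Set G) ω 1 s := by
      by_contra hcon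
      push Not at hcon
      apply hcost
      obtain ⟨w, hw, hwε⟩ := weights ℕ hε
      obtain ⟨s, hs⟩ := exists_surjective_nat G
      refine CostLe.mono (chain hreal (Equiv.refl ℕ) (fun a b : ℕ => a < b) Nat.lt_wfRel.wf
        (fun i => if i = 0 then ∅ else (({a, b} : Finset G) : Set G))
        (fun i => if i = 0 then (({a, b} : Finset G) : Set G) else {s (i - 1)})
        (fun i => w i + if i = 0 then 1 else 0) ?_ ?_ ?_) ?_
      · intro i
        rcases i with _ | i
        · simpa [add_comm] using hrc (w 0) (hw 0)
        · obtain ⟨p, hp0, hp1, hpε⟩ : ∃ p : ℝ, 0 < p ∧ p ≤ 1 ∧ ENNReal.ofReal p ≤ w (i + 1) := by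
            rcases eq_or_ne (w (i + 1)) ⊤ with h | hεt
            · exact ⟨1, one_pos, le_rfl, by rw [h]; exact le_top⟩
            · have hε' : 0 < (w (i + 1)).toReal := ENNReal.toReal_pos (hw _).ne' hεt
              exact ⟨min 1 (w (i + 1)).toReal, lt_min one_pos hε', min_le_left _ _,
                (ENNReal.ofReal_le_ofReal (min_le_right _ _)).trans (ENNReal.ofReal_toReal hεt).le⟩
          have := RC.mono (rc_of_perc hinv hres (({a, b} : Finset G) : Set G) (s i)
            ⟨p, hp0.le, hp1⟩ (hcon (s i) ⟨p, hp0.le, hp1⟩ hp0)) hpε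
          simpa using this
      · intro i v hv
        rcases i with _ | i
        · simp at hv
        · refine Subgroup.subset_closure ?_
          simp only [Set.mem_iUnion]
          refine ⟨0, Nat.succ_pos i, ?_⟩
          simpa using hv
      · rw [eq_top_iff]
        intro g _
        obtain ⟨i, rfl⟩ := hs g
        refine Subgroup.subset_closure ?_
        simp only [Set.mem_iUnion]
        exact ⟨i + 1, by simp⟩
      · rw [ENNReal.tsum_add, tsum_eq_single 0 (f := fun i : ℕ =>
          if i = 0 then (1 : ENNReal) else 0) (by intro b hb; simp [hb])]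
        simp only [if_true]
        rw [add_comm]
        gcongr
    -- density of bridges
    set B : Finset G := {a, b} with hB
    set ν := perc (pOne s p) with hν
    have hνi : Inv ν := hinv G _
    set N : Set (Cfg G) := {ω | Bridge (B : Set G) ω (1, s)} with hN
    have hNm : MeasurableSet N := measurableSet_bridge _ _
    have hNpos : 0 < ν N := by
      rw [pos_iff_ne_zero]
      intro h0
      apply hp
      rw [measure_eq_zero_iff_ae_notMem] at h0
      filter_upwards [h0] with ω hω
      simp only [hN, Bridge, Set.mem_ofPred_eq, not_not, mul_one] at hω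
      refine Conn.mono (Set.Subset.refl _) ?_ hω
      intro e he
      by_cases h : e = (1, s)
      · subst h; simp at he
      · simpa [Function.update_apply, h] using he
    let Q : G × G → Set (Cfg G) := fun e => {ω | ω e = true ∧ Bridge (B : Set G) ω e}
    have hQm : ∀ e, MeasurableSet (Q e) := fun e =>
      (measurableSet_eq_fun (measurable_pi_apply _) measurable_const).inter
        (measurableSet_bridge _ _)
    have hQ1 : ν (Q (1, s)) = ENNReal.ofReal p * ν N := by
      have := perc_indep hres (pOne s p) (1, s) N hNm (by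
        intro η b
        simp [hN, Bridge])
      rw [pOne_self] at this
      exact this
    have hQpos : 0 < (ν (Q (1, s))).toReal := by
      refine ENNReal.toReal_pos ?_ (measure_ne_top _ _)
      rw [hQ1]
      exact mul_ne_zero (by simpa using hp0) hNpos.ne'
    have hQinv : ∀ x, ν (Q (x, s)) = ν (Q (1, s)) := by
      intro x
      rw [← (hνi.mp x).measure_preimage (hQm (1, s)).nullMeasurableSet]
      congr 1
      ext ω
      simp only [Q, Set.mem_preimage, Set.mem_ofPred_eq, bridge_shift, shift, one_mul]
    refine ⟨s, (ν (Q (1, s))).toReal, hQpos, ?_⟩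
    intro C D V hCD hDV hV hVs
    have hcount := count_expect hcnt B ν D V (C ×ˢ {s}) Q hQm
      (Filter.Eventually.of_forall (fun ω e h => h))
      (by
        rintro ⟨x, t⟩ he
        rw [Finset.mem_product, Finset.mem_singleton] at he
        obtain ⟨hx, rfl⟩ := he
        exact ⟨hCD hx, hVs x hx⟩)
      hDV
      (by
        intro t ht x hx
        simp only [hB, Finset.mem_insert, Finset.mem_singleton] at ht
        rcases ht with rfl | rfl
        · exact (hV x hx).1
        · exact (hV x hx).2)
    have hinfc : Nat.card (Subgroup.closure (B : Set G)) = 0 := by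
      have : Infinite (Subgroup.closure (B : Set G)) := by
        have h2 : (B : Set G) = {a, b} := by simp [hB]
        rw [h2]
        exact hab.to_subtype
      exact Nat.card_eq_zero_of_infinite
    rw [hinfc, Nat.cast_zero, div_zero, add_zero, Finset.sum_product] at hcount
    simp only [Finset.sum_singleton, hQinv] at hcount
    rw [Finset.sum_const, nsmul_eq_mul] at hcount
    have h5 : ((V \ D).card : ℝ) = V.card - D.card := by
      rw [Finset.card_sdiff_of_subset hDV, Nat.cast_sub (Finset.card_le_card hDV)]
    rw [h5] at hcount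
    linarith
  · -- a forest of cost larger than one
    push Not at hcase
    obtain ⟨ν, hνp, hνi, hνf, hνS, hνc⟩ := hcase
    have hzero : ∀ s ∉ ({a, b} : Finset G), ν {ω | ω (1, s) = true} = 0 := by
      intro s hs
      rw [measure_eq_zero_iff_ae_notMem]
      filter_upwards [hνS] with ω hω h
      exact hs (hω 1 s h)
    have hcost' : cost ν = ∑ s ∈ ({a, b} : Finset G), ν {ω | ω (1, s) = true} :=
      tsum_eq_sum (fun s hs => hzero s hs)
    have hcosttop : cost ν ≠ ⊤ := by
      rw [hcost']
      exact ENNReal.sum_ne_top.2 (fun s _ => measure_ne_top _ _)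
    have h1 : 1 < (cost ν).toReal := by
      rw [← ENNReal.toReal_one]
      exact (ENNReal.toReal_lt_toReal ENNReal.one_ne_top hcosttop).2 hνc
    refine ⟨1, (cost ν).toReal - 1, by linarith, ?_⟩
    intro C D V hCD hDV hV _
    have hcount := count_expect hcnt ∅ ν D V (D ×ˢ {a, b}) (fun e => {ω | ω e = true})
      (fun e => measurableSet_eq_fun (measurable_pi_apply _) measurable_const)
      (by
        filter_upwards [hνf] with ω hω e he
        exact ⟨he, by simpa using hω e he⟩)
      (by
        rintro ⟨x, t⟩ he
        rw [Finset.mem_product] at he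
        obtain ⟨hx, ht⟩ := he
        refine ⟨hx, ?_⟩
        simp only [Finset.mem_insert, Finset.mem_singleton] at ht
        rcases ht with rfl | rfl
        · exact (hV x hx).1
        · exact (hV x hx).2)
      hDV (by simp)
    have hsum : ∑ e ∈ D ×ˢ ({a, b} : Finset G), (ν {ω | ω e = true}).toReal =
        D.card * (cost ν).toReal := by
      rw [Finset.sum_product, hcost', ENNReal.toReal_sum (fun s _ => measure_ne_top _ _)]
      simp only [inv_edge hνi]
      rw [Finset.sum_const, nsmul_eq_mul]
    rw [hsum] at hcount
    have h5 : ((V \ D).card : ℝ) = V.card - D.card := by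
      rw [Finset.card_sdiff_of_subset hDV, Nat.cast_sub (Finset.card_le_card hDV)]
    rw [h5] at hcount
    have hc : (C.card : ℝ) ≤ D.card := by exact_mod_cast Finset.card_le_card hCD
    simp only [Finset.coe_empty, Subgroup.closure_empty, Subgroup.card_bot, Nat.cast_one,
      div_one] at hcount
    nlinarith

end Pool.Agent.W336.CS
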