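import Pool.Agent.W336.CS.Chain
import Pool.Agent.W336.CS.FE

set_option autoImplicit false
set_option linter.unusedVariables false

open MeasureTheory

namespace Pool.Agent.W336.CS

open Classical in
/-- percolation with one label -/
noncomputable def pOne {G : Type} (g : G) (p : unitInterval) : G → unitInterval :=
  fun s => if s = g then p else 0

theorem pOne_self {G : Type} (g : G) (p : unitInterval) : pOne g p g = p := by simp [pOne]

theorem pOne_ne {G : Type} {g s : G} (p : unitInterval) (h : s ≠ g) : pOne g p s = 0 := by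
  simp [pOne, h]

theorem perc_edge (hres : S_resample) {G : Type} [Countable G] (p : G → unitInterval)
    (e : G × G) : perc p {ω | ω e = true} = ENNReal.ofReal (p e.2) := by
  classical
  have h4 := perc_indep hres p e Set.univ MeasurableSet.univ (fun _ _ => by simp)
  simpa only [Set.mem_univ, and_true, measure_univ, mul_one] using h4

theorem cost_perc_one (hres : S_resample) {G : Type} [Group G] [Countable G] (g : G)
    (p : unitInterval) : cost (perc (pOne g p)) = ENNReal.ofReal p := by
  unfold cost
  simp only [perc_edge hres]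
  rw [tsum_eq_single g]
  · rw [pOne_self]
  · intro s hs
    simp [pOne_ne p hs]

/-- If percolation with one label connects `1` and `g`, it gives a relative cost bound. -/
theorem rc_of_perc (hinv : S_percInv) (hres : S_resample) {G : Type} [Group G] [Countable G]
    (B : Set G) (g : G) (p : unitInterval)
    (h : ∀ᵐ ω ∂(perc (pOne g p)), Conn B ω 1 g) : RC B {g} (ENNReal.ofReal p) := by
  refine ⟨perc (pOne g p), inferInstance, hinv G _, (cost_perc_one hres g p).le, ?_⟩
  rw [ae_all_iff]
  intro x
  have := (Inv.mp (hinv G (pOne g p)) x).quasiMeasurePreserving.ae h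
  filter_upwards [this] with ω hω s hs
  rw [Set.mem_singleton_iff] at hs
  subst hs
  rw [conn_shift, one_mul] at hω
  exact hω

theorem rc_detour (hinv : S_percInv) (hres : S_resample) (hopen : S_open) (hdet : S_detour)
    {G : Type} [Group G] [Countable G] (n : ℕ) (hn : 0 < n) (hexp : ∀ x : G, x ^ n = 1)
    (M : Subgroup G) (hM : (M : Set G).Infinite) (g : G) (ε : ENNReal) (hε : 0 < ε) :
    RC (M : Set G) {g} ε := by
  obtain ⟨p, hp0, hp1, hpε⟩ : ∃ p : ℝ, 0 < p ∧ p ≤ 1 ∧ ENNReal.ofReal p ≤ ε := by
    rcases eq_or_ne ε ⊤ with rfl | hεt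
    · exact ⟨1, one_pos, le_rfl, le_top⟩
    · have hε' : 0 < ε.toReal := ENNReal.toReal_pos hε.ne' hεt
      exact ⟨min 1 ε.toReal, lt_min one_pos hε', min_le_left _ _,
        (ENNReal.ofReal_le_ofReal (min_le_right _ _)).trans (ENNReal.ofReal_toReal hεt).le⟩
  refine RC.mono (rc_of_perc hinv hres (M : Set G) g ⟨p, hp0.le, hp1⟩ ?_) hpε
  obtain ⟨Z, hZ1, hZ2, hZ3, hZ4⟩ := hdet G n hn hexp M hM g
  have := hopen G (pOne g ⟨p, hp0.le, hp1⟩) g (by rw [pOne_self]; exact hp0) (2 * n) Z hZ1 hZ2 hZ3
  filter_upwards [this] with ω hω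
  obtain ⟨i, hi⟩ := hω
  exact hZ4 i ω hi

end Pool.Agent.W336.CS
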