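import Pool.Agent.W336.CS.AmenRC
import Pool.Agent.W336.CS.MArg

set_option autoImplicit false
set_option linter.unusedVariables false

open MeasureTheory

namespace Pool.Agent.W336.CS

theorem fol_finite (W : Type) [Group W] [Finite W] : Fol W := by
  intro S ε hε
  have := Fintype.ofFinite W
  refine ⟨Finset.univ, ⟨1, Finset.mem_univ _⟩, fun s _ => ?_⟩
  simp
  positivity

/-- positive weights with small sum -/
theorem weights (ι : Type) [Countable ι] {ε : ENNReal} (hε : 0 < ε) :
    ∃ w : ι → ENNReal, (∀ i, 0 < w i) ∧ ∑' i, w i ≤ ε := by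
  obtain ⟨w, h1, h2⟩ := ENNReal.exists_pos_sum_of_countable hε.ne' ι
  exact ⟨fun i => w i, fun i => ENNReal.coe_pos.2 (h1 i), h2.le⟩

theorem fol_congr {G : Type} [Group G] {S T : Set G} (h : S = T)
    (hS : Fol (Subgroup.closure S)) : Fol (Subgroup.closure T) := by
  subst h; exact hS

theorem rc_amen' (hcnt : S_cnt) (hfe : S_fe) {G : Type} [Group G] [Countable G]
    (B S : Finset G) (hF : Fol (Subgroup.closure ((B : Set G) ∪ S)))
    (ε : ENNReal)
    (hε : ENNReal.ofReal (1 / Nat.card (Subgroup.closure (B : Set G))) < ε) :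
    RC (B : Set G) (S : Set G) ε := by
  have h := rc_amen hcnt hfe B S hF
    (ε - ENNReal.ofReal (1 / Nat.card (Subgroup.closure (B : Set G)))) (tsub_pos_of_lt hε)
  rwa [add_tsub_cancel_of_le hε.le] at h

theorem rc_start (hcnt : S_cnt) (hfe : S_fe) {G : Type} [Group G] [Countable G]
    (S : Finset G) (hF : Fol (Subgroup.closure (S : Set G)))
    (ε : ENNReal) (hε : 0 < ε) :
    RC (∅ : Set G) (S : Set G) (1 + ε) := by
  have h := rc_amen hcnt hfe (∅ : Finset G) S (fol_congr (by simp) hF) ε hε
  simpa using h

/-- the case of elements of unbounded order -/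
theorem unbounded (hreal : S_real) (hcnt : S_cnt) (hfe : S_fe) {G : Type} [Group G] [Countable G]
    (h2 : ∀ a b : G, Fol (Subgroup.closure ({a, b} : Set G)))
    (hN : ∀ N : ℕ, ∃ u : G, orderOf u = 0 ∨ N < orderOf u) (ε : ENNReal) (hε : 0 < ε) :
    CostLe G (1 + ε) := by
  classical
  obtain ⟨w, hw, hwε⟩ := weights (Option (ℕ × Bool)) hε
  obtain ⟨e⟩ : Nonempty (Option (ℕ × Bool) ≃ ℕ) := by
    obtain ⟨d⟩ := nonempty_denumerable (Option (ℕ × Bool))
    exact ⟨Denumerable.eqv _⟩
  obtain ⟨s, hs⟩ := exists_surjective_nat G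
  -- choice of elements of large order
  have hu : ∀ i : ℕ, ∃ u : G, ∀ b : Bool,
      ENNReal.ofReal (1 / Nat.card (Subgroup.closure (({u} : Finset G) : Set G))) <
        w (some (i, b)) := by
    intro i
    have : ∀ b : Bool, ∃ N : ℕ, ∀ n : ℕ, N < n → ENNReal.ofReal (1 / (n : ℝ)) < w (some (i, b)) := by
      intro b
      obtain ⟨N, hN⟩ := ENNReal.exists_inv_nat_lt (hw (some (i, b))).ne'
      refine ⟨N, fun n hn => lt_of_le_of_lt ?_ hN⟩
      have hn0 : (0 : ℝ) < n := by exact_mod_cast (Nat.zero_le N).trans_lt hn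
      rw [one_div, ENNReal.ofReal_inv_of_pos hn0, ENNReal.ofReal_natCast]
      exact ENNReal.inv_le_inv.2 (by exact_mod_cast hn.le)
    choose N hN' using this
    obtain ⟨u, hu⟩ := hN (max (N true) (N false))
    refine ⟨u, fun b => ?_⟩
    rw [Finset.coe_singleton, ← Subgroup.zpowers_eq_closure, Nat.card_zpowers]
    rcases hu with hu | hu
    · rw [hu]
      simpa using hw (some (i, b))
    · refine hN' b _ (lt_of_le_of_lt ?_ hu)
      cases b
      · exact le_max_right _ _
      · exact le_max_left _ _
  choose u hu using hu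
  let B : Option (ℕ × Bool) → Set G := fun i => match i with
    | none => ∅
    | some (i, _) => (({u i} : Finset G) : Set G)
  let S : Option (ℕ × Bool) → Set G := fun i => match i with
    | none => (({u 0} : Finset G) : Set G)
    | some (i, true) => (({u (i + 1)} : Finset G) : Set G)
    | some (i, false) => (({s i} : Finset G) : Set G)
  let ρ : Option (ℕ × Bool) → ℕ := fun i => match i with
    | none => 0
    | some (i, _) => i + 1
  have hpair : ∀ a b : G, Fol (Subgroup.closure
      ((({a} : Finset G) : Set G) ∪ (({b} : Finset G) : Set G))) := by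
    intro a b
    refine fol_congr ?_ (h2 a b)
    ext x; simp [or_comm]
  refine CostLe.mono (chain hreal e (fun i j => ρ i < ρ j) (InvImage.wf ρ Nat.lt_wfRel.wf) B S
    (fun i => w i + if i = none then 1 else 0) ?_ ?_ ?_) ?_
  · intro i
    rcases i with _ | ⟨i, b⟩
    · have h := rc_start hcnt hfe ({u 0} : Finset G) (by
        have := hpair (u 0) (u 0)
        rwa [Set.union_self] at this) (w none) (hw none)
      simpa [B, S, add_comm] using h
    · have h : ∀ t : G, RC ((({u i} : Finset G) : Set G)) ((({t} : Finset G) : Set G))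
          (w (some (i, b))) := fun t =>
        rc_amen' hcnt hfe ({u i} : Finset G) ({t} : Finset G) (hpair _ _) _ (hu i b)
      cases b
      · simpa [B, S] using h (s i)
      · simpa [B, S] using h (u (i + 1))
  · intro i v hv
    rcases i with _ | ⟨i, b⟩
    · exact absurd hv (by simp [B])
    · have hv' : v = u i := by simpa [B] using hv
      subst hv'
      refine Subgroup.subset_closure ?_
      simp only [Set.mem_iUnion]
      rcases i with _ | i
      · exact ⟨none, by simp [ρ], by simp [S]⟩
      · exact ⟨some (i, true), by simp [ρ], by simp [S]⟩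
  · rw [eq_top_iff]
    intro g _
    obtain ⟨i, rfl⟩ := hs g
    refine Subgroup.subset_closure ?_
    simp only [Set.mem_iUnion]
    exact ⟨some (i, false), by simp [S]⟩
  · rw [ENNReal.tsum_add, tsum_eq_single none (f := fun i : Option (ℕ × Bool) =>
      if i = none then (1 : ENNReal) else 0) (by intro b hb; simp [hb])]
    simp only [if_true]
    rw [add_comm]
    gcongr

/-- the case of bounded exponent with a suitable infinite subgroup -/
theorem bounded_aux (hreal : S_real) (hcnt : S_cnt) (hfe : S_fe) (hinv : S_percInv)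
    (hres : S_resample) (hopen : S_open) (hdet : S_detour)
    {G : Type} [Group G] [Countable G] (n : ℕ) (hn : 0 < n) (hexp : ∀ x : G, x ^ n = 1)
    (M : Subgroup G) (hM : (M : Set G).Infinite)
    (hMF : ∀ w : ℕ → ENNReal, (∀ i, 0 < w i) → ∃ F : ℕ → Finset G,
      RC (∅ : Set G) (F 0 : Set G) (1 + w 0) ∧ (∀ i, RC (F i : Set G) (F (i + 1) : Set G)
        (w (i + 1))) ∧ M ≤ Subgroup.closure (⋃ i, (F i : Set G)))
    (ε : ENNReal) (hε : 0 < ε) : CostLe G (1 + ε) := by
  classical
  obtain ⟨w, hw, hwε⟩ := weights (ℕ ⊕ ℕ) hε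
  obtain ⟨s, hs⟩ := exists_surjective_nat G
  obtain ⟨F, hF0, hF1, hF2⟩ := hMF (fun i => w (Sum.inl i)) (fun i => hw _)
  let B : ℕ ⊕ ℕ → Set G := fun i => match i with
    | Sum.inl 0 => ∅
    | Sum.inl (i + 1) => (F i : Set G)
    | Sum.inr _ => (M : Set G)
  let S : ℕ ⊕ ℕ → Set G := fun i => match i with
    | Sum.inl i => (F i : Set G)
    | Sum.inr j => {s j}
  have hwf : WellFounded (Sum.Lex (fun a b : ℕ => a < b) (fun a b : ℕ => a < b)) :=
    Sum.lex_wf Nat.lt_wfRel.wf Nat.lt_wfRel.wf
  refine CostLe.mono (chain hreal Equiv.natSumNatEquivNat _ hwf B S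
    (fun i => w i + if i = Sum.inl 0 then 1 else 0) ?_ ?_ ?_) ?_
  · intro i
    rcases i with i | j
    · rcases i with _ | i
      · simpa [B, S, add_comm] using hF0
      · simpa [B, S] using hF1 i
    · simpa [B, S] using rc_detour hinv hres hopen hdet n hn hexp M hM (s j) (w (Sum.inr j)) (hw _)
  · intro i v hv
    rcases i with i | j
    · rcases i with _ | i
      · exact absurd hv (by simp [B])
      · refine Subgroup.subset_closure ?_
        simp only [Set.mem_iUnion]
        exact ⟨Sum.inl i, Sum.Lex.inl (Nat.lt_succ_self i), hv⟩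
    · have hv' : v ∈ M := hv
      have := hF2 hv'
      refine Subgroup.closure_mono ?_ this
      intro x hx
      simp only [Set.mem_iUnion] at hx ⊢
      obtain ⟨i, hi⟩ := hx
      exact ⟨Sum.inl i, Sum.Lex.sep _ _, hi⟩
  · rw [eq_top_iff]
    intro g _
    obtain ⟨i, rfl⟩ := hs g
    refine Subgroup.subset_closure ?_
    simp only [Set.mem_iUnion]
    exact ⟨Sum.inr i, by simp [S]⟩
  · rw [ENNReal.tsum_add, tsum_eq_single (Sum.inl 0) (f := fun i : ℕ ⊕ ℕ =>
      if i = Sum.inl 0 then (1 : ENNReal) else 0) (by intro b hb; simp [hb])]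
    simp only [if_true]
    rw [add_comm]
    gcongr

theorem rc_trivial {G : Type} [Group G] (B S : Set G) (h : S ⊆ Subgroup.closure B)
    (c : ENNReal) : RC B S c := by
  obtain ⟨ν, h1, h2, h3, h4⟩ := RC.empty (G := G) B c
  refine ⟨ν, h1, h2, h3, Filter.Eventually.of_forall (fun ω g s hs => ?_)⟩
  exact Conn.closure (fun a t ht => Conn.base ht a) (h hs) g

/-- **Groups all of whose 2-generated subgroups are amenable have cost at most 1.** -/
theorem main1 (hlf : S_lf) (hreal : S_real) (hcnt : S_cnt) (hfe : S_fe) (hinv : S_percInv)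
    (hres : S_resample) (hopen : S_open) (hdet : S_detour)
    {G : Type} [Group G] [Countable G]
    (h2 : ∀ a b : G, Fol (Subgroup.closure ({a, b} : Set G)))
    (ε : ENNReal) (hε : 0 < ε) : CostLe G (1 + ε) := by
  classical
  by_cases hN : ∀ N : ℕ, ∃ u : G, orderOf u = 0 ∨ N < orderOf u
  · exact unbounded hreal hcnt hfe h2 hN ε hε
  push Not at hN
  obtain ⟨N, hN⟩ := hN
  have hexp : ∀ x : G, x ^ (N.factorial) = 1 := by
    intro x
    refine orderOf_dvd_iff_pow_eq_one.1 (Nat.dvd_factorial ?_ (hN x).2)
    exact Nat.pos_of_ne_zero (hN x).1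
  have hn : 0 < N.factorial := Nat.factorial_pos N
  rcases finite_or_infinite G with hfin | hinf
  · -- finite groups
    have := Fintype.ofFinite G
    have h0 : Fol (Subgroup.closure ((Finset.univ : Finset G) : Set G)) := fol_finite _
    refine CostLe.mono (chain hreal (Equiv.refl ℕ) (fun a b : ℕ => a < b) Nat.lt_wfRel.wf
      (fun _ => ∅) (fun i => if i = 0 then Set.univ else ∅)
      (fun i => if i = 0 then 1 + ε else 0) ?_ (fun i u hu => absurd hu (by simp)) ?_) ?_
    · intro i
      rcases i with _ | i
      · simpa using rc_start hcnt hfe (Finset.univ : Finset G) h0 ε hε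
      · simpa using RC.empty (G := G) ∅ 0
    · rw [eq_top_iff]
      intro g _
      refine Subgroup.subset_closure ?_
      simp only [Set.mem_iUnion]
      exact ⟨0, by simp⟩
    · rw [tsum_eq_single 0 (by intro b hb; simp [hb])]
      simp
  · by_cases hF2 : Fin2 G
    · -- infinite locally finite subgroup
      have hno : ¬ NoInfLF G := fun h => by
        have := hlf G hF2 h
        exact not_finite G
      unfold NoInfLF at hno
      push Not at hno
      obtain ⟨M, hMlf, hM⟩ := hno
      have hM : (M : Set G).Infinite := hM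
      refine bounded_aux hreal hcnt hfe hinv hres hopen hdet _ hn hexp M hM ?_ ε hε
      intro w hw
      obtain ⟨m, hm⟩ := exists_surjective_nat M
      have hK : ∀ i : ℕ, ∃ t : Finset G, (t : Set G) ⊆ M ∧
          ENNReal.ofReal (1 / (t.card : ℝ)) < w (i + 1) ∧ 0 < t.card := by
        intro i
        obtain ⟨K, hK⟩ := ENNReal.exists_inv_nat_lt (hw (i + 1)).ne'
        obtain ⟨t, ht, htc⟩ := hM.exists_subset_card_eq (K + 1)
        refine ⟨t, ht, lt_of_le_of_lt ?_ hK, by omega⟩
        rw [htc, one_div, ENNReal.ofReal_inv_of_pos (by positivity), ENNReal.ofReal_natCast]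
        exact ENNReal.inv_le_inv.2 (by exact_mod_cast Nat.le_succ K)
      choose t ht htw htc using hK
      let F : ℕ → Finset G := fun i => t i ∪ {(m i : G)}
      have hFM : ∀ i, (F i : Set G) ⊆ M := by
        intro i x hx
        rw [Finset.mem_coe, Finset.mem_union, Finset.mem_singleton] at hx
        rcases hx with hx | rfl
        · exact ht i hx
        · exact (m i).2
      have hfinF : ∀ s : Finset G, (s : Set G) ⊆ M → Fol (Subgroup.closure (s : Set G)) := by
        intro s hs
        have : Finite (Subgroup.closure (s : Set G)) := (hMlf s hs).to_subtype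
        exact fol_finite _
      refine ⟨F, rc_start hcnt hfe (F 0) (hfinF _ (hFM 0)) (w 0) (hw 0), fun i => ?_, ?_⟩
      · refine rc_amen' hcnt hfe (F i) (F (i + 1)) ?_ _ ?_
        · rw [← Finset.coe_union]
          refine hfinF _ ?_
          rw [Finset.coe_union]
          exact Set.union_subset (hFM i) (hFM _)
        · refine lt_of_le_of_lt ?_ (htw i)
          refine ENNReal.ofReal_le_ofReal ?_
          have hfin : (Subgroup.closure (F i : Set G) : Set G).Finite := hMlf _ (hFM i)
          have h1 : (t i).card ≤ Nat.card (Subgroup.closure (F i : Set G)) := by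
            have h3 : ((t i : Set G)).ncard ≤ (Subgroup.closure (F i : Set G) : Set G).ncard :=
              Set.ncard_le_ncard (fun x hx => Subgroup.subset_closure
                (Finset.mem_coe.2 (Finset.mem_union_left _ hx))) hfin
            rwa [Set.ncard_coe_finset] at h3
          exact one_div_le_one_div_of_le (by exact_mod_cast htc i) (by exact_mod_cast h1)
      · intro x hx
        obtain ⟨i, hi⟩ := hm ⟨x, hx⟩
        refine Subgroup.subset_closure ?_
        simp only [Set.mem_iUnion]
        refine ⟨i, ?_⟩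
        simp [F, hi]
    · -- infinite amenable 2-generated subgroup
      unfold Fin2 at hF2
      push Not at hF2
      obtain ⟨a, b, hab⟩ := hF2
      have hab : (Subgroup.closure ({a, b} : Set G) : Set G).Infinite := hab
      refine bounded_aux hreal hcnt hfe hinv hres hopen hdet _ hn hexp _ hab ?_ ε hε
      intro w hw
      refine ⟨fun _ => {a, b}, ?_, fun i => ?_, ?_⟩
      · exact rc_start hcnt hfe ({a, b} : Finset G) (fol_congr (by simp) (h2 a b)) (w 0) (hw 0)
      · exact rc_trivial _ _ Subgroup.subset_closure _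
      · intro x hx
        refine Subgroup.closure_mono ?_ hx
        intro y hy
        simp only [Set.mem_iUnion]
        exact ⟨0, by simpa using hy⟩

end Pool.Agent.W336.CS
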